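import Pool.Agent.Hp428.TD.Gam
import Pool.Agent.H24R2.DZ.Spec

set_option autoImplicit false

/-!
# The local situation of a completed L-function of degree two with bounds of good quality

`G z = c Q^z Γ(1+z) R(z)` for `Re z ≥ 0` is the completed L-function (critical line `Re z = 0`), `R` the
L-function; the bounds for `R` are those which hold for almost all members of a family:
`|R(z)| ≤ exp (K ℓ)` for `Re z ≥ 0` and `|R(z)| ≥ exp (-K ℓ)` for `Re z ≥ K ℓ / L`, where
`ℓ = log L + log (2 + |Im z|)`.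
-/

namespace Pool.Agent.Hp428.TD

open Complex Filter Topology Set
open Pool.Agent.H24R2.DZ (NN SHar)
open scoped ComplexConjugate

/-- `log L + log (2 + |y|)` -/
noncomputable def el (L y : ℝ) : ℝ := Real.log L + Real.log (2 + |y|)

/-- bounds of good quality for the L-function -/
structure RN (L K : ℝ) (R : ℂ → ℂ) : Prop where
  an : ∀ z : ℂ, 0 ≤ z.re → DifferentiableAt ℂ R z
  nz : ∀ z : ℂ, 1 / 2 < z.re → R z ≠ 0
  up : ∀ z : ℂ, 0 ≤ z.re → ‖R z‖ ≤ Real.exp (K * el L z.im)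
  low : ∀ z : ℂ, 0 ≤ z.re → (K * el L z.im ≤ L * z.re ∨ 1 ≤ z.re) →
    Real.exp (-(K * el L z.im)) ≤ ‖R z‖

/-- the completed L-function -/
structure GQ (L K Q : ℝ) (R G : ℂ → ℂ) : Prop where
  rn : RN L K R
  hQ : 0 < Q
  q : |Real.log Q - L| ≤ K * Real.log L
  diff : Differentiable ℂ G
  symm : ∀ z : ℂ, G (-(conj z)) = conj (G z)
  fac : ∃ c : ℂ, c ≠ 0 ∧ ∀ z : ℂ, 0 ≤ z.re → G z = c * (Q : ℂ) ^ z * Gamma (1 + z) * R z

/-- the analytic conductor (logarithm) -/
noncomputable def Oq (L y n : ℝ) : ℝ := L + Real.log (2 + |y| + n)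

theorem el_nonneg {L : ℝ} (hL : 1 ≤ L) (y : ℝ) : 0 ≤ el L y := by
  unfold el
  have h1 := Real.log_nonneg hL
  have h2 : 0 ≤ Real.log (2 + |y|) := Real.log_nonneg (by have := abs_nonneg y; linarith)
  linarith

theorem el_pos {L : ℝ} (hL : 1 ≤ L) (y : ℝ) : 0 < el L y := by
  unfold el
  have h1 := Real.log_nonneg hL
  have h2 : 0 < Real.log (2 + |y|) := Real.log_pos (by have := abs_nonneg y; linarith)
  linarith

/-- `ℓ` at a nearby point -/
theorem el_near {L y r t : ℝ} (hr : 0 ≤ r) (ht : |t| ≤ |y| + 27 * r) : el L t ≤ el L y + 14 * r := by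
  unfold el
  have hy := abs_nonneg y
  have ht0 := abs_nonneg t
  have h1 : 2 + |t| ≤ (2 + |y|) * (1 + 27 / 2 * r) := by nlinarith
  have h2 : Real.log (2 + |t|) ≤ Real.log ((2 + |y|) * (1 + 27 / 2 * r)) :=
    Real.log_le_log (by linarith) h1
  rw [Real.log_mul (by positivity) (by positivity)] at h2
  have h3 : Real.log (1 + 27 / 2 * r) ≤ 27 / 2 * r := by
    have := Real.log_le_sub_one_of_pos (x := 1 + 27 / 2 * r) (by positivity)
    linarith
  linarith

/-- the constants -/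
theorem consts {K CH ε : ℝ} (hK : 1 ≤ K) (hCH : 0 < CH) (hε : 0 < ε) : ∃ L0 : ℝ,
    100 ≤ L0 ∧ 60000 * K ≤ L0 ∧ 56 * K * CH / ε ≤ L0 ∧ ∀ x : ℝ, L0 ≤ x →
      K * Real.log x ≤ ε * x ∧ 5 + Real.log (23002 * x) ≤ ε * x ∧ Real.log (1 + 2000 * x) ≤ x / 4 := by
  have hlog : ∀ δ : ℝ, 0 < δ → ∀ᶠ x : ℝ in atTop, Real.log x ≤ δ * x := by
    intro δ hδ
    have h := Real.isLittleO_log_id_atTop.bound hδ
    filter_upwards [h, eventually_ge_atTop (1 : ℝ)] with x hx hx1
    simp only [id, Real.norm_eq_abs] at hx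
    rw [abs_of_nonneg (Real.log_nonneg hx1), abs_of_nonneg (by linarith)] at hx
    exact hx
  have e1 := hlog (ε / K) (by positivity)
  have e2 := hlog (ε / 2) (by positivity)
  have e3 := hlog (1 / 8) (by norm_num)
  have h := ((e1.and (e2.and e3)).and (eventually_ge_atTop (max (2 * (5 + Real.log 23002) / ε)
    (8 * Real.log 2001)))).and (eventually_ge_atTop (1 : ℝ))
  obtain ⟨M, hM⟩ := eventually_atTop.1 h
  refine ⟨max M (max 100 (max (60000 * K) (56 * K * CH / ε))), ?_, ?_, ?_, ?_⟩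
  · exact (le_max_left _ _).trans (le_max_right _ _)
  · exact ((le_max_left _ _).trans (le_max_right _ _)).trans (le_max_right _ _)
  · exact ((le_max_right _ _).trans (le_max_right _ _)).trans (le_max_right _ _)
  intro x hx
  obtain ⟨⟨⟨h1, h2, h3⟩, h4⟩, h5⟩ := hM x ((le_max_left _ _).trans hx)
  have h4a := (le_max_left _ _).trans h4
  have h4b := (le_max_right _ _).trans h4
  have hx0 : 0 < x := by linarith
  refine ⟨?_, ?_, ?_⟩
  · calc K * Real.log x ≤ K * (ε / K * x) := by gcongr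
      _ = ε * x := by field_simp
  · rw [Real.log_mul (by norm_num) hx0.ne']
    rw [div_le_iff₀ hε] at h4a
    nlinarith
  · have h6 : Real.log (1 + 2000 * x) ≤ Real.log (2001 * x) :=
      Real.log_le_log (by positivity) (by linarith)
    rw [Real.log_mul (by norm_num) hx0.ne'] at h6
    linarith

end Pool.Agent.Hp428.TD
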