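import Pool.Agent.Y474.QTHZ6a
import Pool.Agent.Y474.QTZ6
import Pool.Agent.Y203.QTZ6a
import Pool.Agent.Hp428.TD.Core

set_option autoImplicit false

/-!
# Few exceptional members from mean values
-/

namespace Pool.Agent.Hp428.TD

open Complex MeasureTheory Finset
open Pool.Agent.Y474.QTZ6 (Box mem_Box Box_compact Box_vol)

/-- the number of exceptional `d` from a mean value in a box -/
theorem count_mean (A : Finset ℤ) (f : ℤ → ℂ → ℂ) {a b U r V M : ℝ} (hr : 0 < r)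
    (hU : 0 ≤ U) (hM0 : 0 ≤ M) (ha : 1 / 4 < a - r) (hb : b ≤ 2)
    (hd : ∀ d ∈ A, DifferentiableOn ℂ (f d) {s : ℂ | 1 / 4 < s.re})
    (hM : ∀ s ∈ Box a b (U + 1), ∑ d ∈ A, ‖f d s‖ ≤ M) (S : Finset ℤ) (hSA : S ⊆ A)
    (hS : ∀ d ∈ S, ∃ s0 : ℂ, a + r ≤ s0.re ∧ s0.re ≤ b - r ∧ |s0.im| ≤ U ∧ V ≤ ‖f d s0‖) :
    (S.card : ℝ) * (V * r ^ 2) ≤ M * (U + 3) ^ 2 := by
  classical
  set D : Set ℂ := Box a b (U + 1) with hD
  have hDc : IsCompact D := Box_compact _ _ _
  have hDsub : D ⊆ {s : ℂ | 1 / 4 < s.re} := by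
    intro s hs
    rw [hD, mem_Box] at hs
    show 1 / 4 < s.re
    linarith [hs.1.1]
  have hint : ∀ d ∈ A, IntegrableOn (fun s => ‖f d s‖) D := by
    intro d hdA
    apply ContinuousOn.integrableOn_compact hDc
    exact ((hd d hdA).continuousOn.mono hDsub).norm
  have key : ∀ d ∈ S, Real.pi * r ^ 2 * V ≤ ∫ s in D, ‖f d s‖ := by
    intro d hdS
    obtain ⟨s0, h1, h2, h3, h4⟩ := hS d hdS
    have hball : Metric.ball s0 r ⊆ D := by
      intro s hs
      rw [mem_ball_iff_norm] at hs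
      have h5 := abs_le.1 ((Complex.abs_re_le_norm (s - s0)).trans hs.le)
      have h6 := abs_le.1 ((Complex.abs_im_le_norm (s - s0)).trans hs.le)
      rw [Complex.sub_re] at h5
      rw [Complex.sub_im] at h6
      rw [hD, mem_Box]
      have h7 := abs_le.1 h3
      exact ⟨⟨by linarith, by linarith⟩, abs_le.2 ⟨by linarith, by linarith⟩⟩
    have h8 := Pool.Agent.Y203.QTZ6a.Z6a (f d) s0 r hr ((hd d (hSA hdS)).mono (by
      intro s hs
      rw [mem_ball_iff_norm] at hs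
      have h5 := abs_le.1 ((Complex.abs_re_le_norm (s - s0)).trans hs.le)
      rw [Complex.sub_re] at h5
      show 1 / 4 < s.re
      linarith))
    calc Real.pi * r ^ 2 * V ≤ Real.pi * r ^ 2 * ‖f d s0‖ := by
          gcongr
      _ ≤ ∫ s in Metric.ball s0 r, ‖f d s‖ := h8
      _ ≤ ∫ s in D, ‖f d s‖ := by
          apply setIntegral_mono_set (hint d (hSA hdS))
          · exact Filter.Eventually.of_forall fun s => norm_nonneg _
          · exact hball.eventuallyLE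
  have h1 : (S.card : ℝ) * (Real.pi * r ^ 2 * V) ≤ ∑ d ∈ A, ∫ s in D, ‖f d s‖ := by
    calc (S.card : ℝ) * (Real.pi * r ^ 2 * V) = ∑ d ∈ S, Real.pi * r ^ 2 * V := by
          rw [sum_const, nsmul_eq_mul]
      _ ≤ ∑ d ∈ S, ∫ s in D, ‖f d s‖ := sum_le_sum key
      _ ≤ _ := sum_le_sum_of_subset_of_nonneg hSA fun d _ _ =>
          integral_nonneg fun s => norm_nonneg _
  have h2 : ∑ d ∈ A, ∫ s in D, ‖f d s‖ ≤ M * (Real.pi * (U + 1 + 2) ^ 2) := by
    rw [← integral_finsetSum _ hint]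
    have h3 : ‖∫ s in D, ∑ d ∈ A, ‖f d s‖‖ ≤ M * volume.real D := by
      apply norm_setIntegral_le_of_norm_le_const hDc.measure_lt_top
      intro s hs
      rw [Real.norm_of_nonneg (sum_nonneg fun _ _ => norm_nonneg _)]
      exact hM s hs
    refine (le_abs_self _).trans (h3.trans ?_)
    apply mul_le_mul_of_nonneg_left _ hM0
    exact Box_vol (by linarith) hb (by linarith)
  have h3 := h1.trans h2
  have hpi := Real.pi_pos
  have h4 : Real.pi * ((S.card : ℝ) * (V * r ^ 2)) ≤ Real.pi * (M * (U + 3) ^ 2) := by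
    calc Real.pi * ((S.card : ℝ) * (V * r ^ 2)) = (S.card : ℝ) * (Real.pi * r ^ 2 * V) := by ring
      _ ≤ _ := h3
      _ = _ := by ring
  exact le_of_mul_le_mul_left h4 hpi

/-- summing over the heights -/
theorem sum_heights (S : Finset ℤ) (u : ℤ → ℕ) {M : ℝ} (hM : 0 ≤ M)
    (h : ∀ U : ℕ, ((S.filter (fun d => u d = U)).card : ℝ) ≤ M / ((U : ℝ) + 1) ^ 2) :
    (S.card : ℝ) ≤ 2 * M := by
  classical
  have h1 : S.card = ∑ U ∈ S.image u, (S.filter (fun d => u d = U)).card :=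
    Finset.card_eq_sum_card_image u S
  rw [h1]
  push_cast
  have hsum : HasSum (fun n : ℕ => 1 / ((n : ℝ) + 1) ^ 2) (Real.pi ^ 2 / 6) := by
    have h2 := (hasSum_nat_add_iff' (f := fun n : ℕ => 1 / (n : ℝ) ^ 2) 1).2 hasSum_zeta_two
    simpa using h2
  calc ∑ U ∈ S.image u, ((S.filter (fun d => u d = U)).card : ℝ)
      ≤ ∑ U ∈ S.image u, M / ((U : ℝ) + 1) ^ 2 := sum_le_sum fun U _ => h U
    _ = M * ∑ U ∈ S.image u, 1 / ((U : ℝ) + 1) ^ 2 := by
        rw [mul_sum]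
        refine sum_congr rfl fun U _ => ?_
        ring
    _ ≤ M * (Real.pi ^ 2 / 6) := by
        gcongr
        exact sum_le_hasSum _ (fun n _ => by positivity) hsum
    _ ≤ 2 * M := by
        have := Real.pi_lt_d2
        have hp := Real.pi_pos
        have h5 : Real.pi ^ 2 / 6 ≤ 2 := by nlinarith
        nlinarith

/-- passing from a bound for large `X` to all `X` -/
theorem small_X {K : ℕ} {L1 : ℝ} {X : ℕ} (hX : 3 ≤ X) (hXL : Real.log X ≤ L1)
    (S : Finset ℤ) (hS : S ⊆ Pool.Agent.Y19.QT.sqf X) :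
    (S.card : ℝ) ≤ 3 * L1 ^ K * X / Real.log X ^ K := by
  have h1 : (S.card : ℝ) ≤ 3 * X :=
    le_trans (by exact_mod_cast Finset.card_le_card hS) (Pool.Agent.Y474.QTZ6.card_sqf' (by omega))
  have hl := Pool.Agent.Y474.QTZ6.one_le_log hX
  have hX0 : (0 : ℝ) ≤ X := Nat.cast_nonneg _
  rw [le_div_iff₀ (by positivity)]
  calc (S.card : ℝ) * Real.log X ^ K ≤ 3 * X * L1 ^ K := by gcongr
    _ = _ := by ring

end Pool.Agent.Hp428.TD
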