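import Mathlib

set_option autoImplicit false

/-!
# A bound on the critical line extends to the right
-/

namespace Pool.Agent.Hp428.TD

open Complex Filter Topology Set

theorem norm_add_two_low (s : ℂ) (hs : 0 ≤ s.re) : (2 + |s.im|) / 2 ≤ ‖s + 2‖ ∧ 1 ≤ ‖s + 2‖ := by
  have h3 := Complex.abs_re_le_norm (s + 2)
  have h4 := Complex.abs_im_le_norm (s + 2)
  have e1 : (s + 2).re = s.re + 2 := by simp
  have e2 : (s + 2).im = s.im := by simp
  rw [e1, abs_of_nonneg (by linarith)] at h3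
  rw [e2] at h4
  constructor <;> linarith

theorem norm_add_two_up (s : ℂ) (hs : 0 ≤ s.re) : ‖s + 2‖ ≤ s.re + 2 + |s.im| := by
  have h := Complex.norm_le_abs_re_add_abs_im (s + 2)
  have e1 : (s + 2).re = s.re + 2 := by simp
  have e2 : (s + 2).im = s.im := by simp
  rw [e1, e2, abs_of_nonneg (by linarith)] at h
  exact h

/-- Phragmen-Lindelof in the half plane -/
theorem pl_strip {f : ℂ → ℂ} {k : ℕ} {A B C : ℝ} (hB : 1 ≤ B) (hC : 1 ≤ C)
    (hd : ∀ s : ℂ, 1 / 4 < s.re → DifferentiableAt ℂ f s)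
    (hg : ∀ s : ℂ, 1 / 2 ≤ s.re → s.re ≤ 5 / 2 → ‖f s‖ ≤ A * Real.exp (2 * |s.im|))
    (h1 : ∀ t : ℝ, ‖f (1 / 2 + t * I)‖ ≤ (B * (2 + |t|)) ^ k)
    (h2 : ∀ s : ℂ, 5 / 2 ≤ s.re → ‖f s‖ ≤ C) (s : ℂ) (hs : 1 / 2 ≤ s.re) :
    ‖f s‖ ≤ C * (5 * B * (2 + |s.im|)) ^ k := by
  have him := abs_nonneg s.im
  rcases le_total (5 / 2) s.re with h | h
  · refine (h2 s h).trans ?_
    have h3 : (1 : ℝ) ≤ 5 * B * (2 + |s.im|) := by nlinarith
    have : (1 : ℝ) ≤ (5 * B * (2 + |s.im|)) ^ k := one_le_pow₀ h3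
    nlinarith
  have hne : ∀ s : ℂ, 0 ≤ s.re → (s + 2) ^ k ≠ 0 := by
    intro s hs
    have h3 := (norm_add_two_low s hs).2
    have h4 : s + 2 ≠ 0 := by
      intro h0
      rw [h0, norm_zero] at h3
      linarith
    exact pow_ne_zero _ h4
  have hcb : (1 : ℝ) ≤ (2 * B) ^ k := one_le_pow₀ (by linarith)
  have hg1 : ∀ s : ℂ, 0 ≤ s.re → ‖f s / (s + 2) ^ k‖ ≤ ‖f s‖ := by
    intro s hs
    rw [norm_div, norm_pow]
    exact div_le_self (norm_nonneg _) (one_le_pow₀ (norm_add_two_low s hs).2)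
  have key : ‖f s / (s + 2) ^ k‖ ≤ C * (2 * B) ^ k := by
    refine PhragmenLindelof.vertical_strip (f := fun s => f s / (s + 2) ^ k) (a := 1 / 2)
      (b := 5 / 2) (C := C * (2 * B) ^ k) (z := s) ?_ ?_ ?_ ?_ hs h
    · refine DifferentiableOn.diffContOnCl fun z hz => ?_
      rw [Complex.closure_preimage_re, closure_Ioo (by norm_num)] at hz
      obtain ⟨hz1, -⟩ := hz
      have h3 : DifferentiableAt ℂ f z := hd z (by
        have : (1 : ℝ) / 2 ≤ z.re := hz1
        linarith)
      have h4 : DifferentiableAt ℂ (fun s : ℂ => (s + 2) ^ k) z := by fun_prop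
      exact (h3.div h4 (hne z (by
        have : (1 : ℝ) / 2 ≤ z.re := hz1
        linarith))).differentiableWithinAt
    · refine ⟨1, ?_, 2, ?_⟩
      · have := Real.pi_gt_three
        rw [lt_div_iff₀ (by norm_num)]
        linarith
      · refine Asymptotics.IsBigO.of_bound |A| ?_
        refine mem_inf_of_right ?_
        intro z hz
        obtain ⟨hz1, hz2⟩ := hz
        show ‖f z / (z + 2) ^ k‖ ≤ |A| * ‖Real.exp (2 * Real.exp (1 * |z.im|))‖
        have hz0 : (1 : ℝ) / 2 < z.re := hz1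
        have hz3 : z.re < (5 : ℝ) / 2 := hz2
        refine (hg1 z (by linarith)).trans ((hg z hz0.le hz3.le).trans ?_)
        rw [Real.norm_eq_abs, Real.abs_exp, one_mul]
        have h5 : |z.im| ≤ Real.exp |z.im| := by
          have := Real.add_one_le_exp |z.im|
          linarith
        calc A * Real.exp (2 * |z.im|) ≤ |A| * Real.exp (2 * |z.im|) := by
              gcongr
              exact le_abs_self A
          _ ≤ |A| * Real.exp (2 * Real.exp |z.im|) := by gcongr
    · intro z hz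
      have e : z = 1 / 2 + (z.im : ℂ) * I := by
        apply Complex.ext
        · simp [hz]
        · simp
      have h3 := h1 z.im
      rw [← e] at h3
      have hz0 : 0 ≤ z.re := by rw [hz]; norm_num
      have h4 := (norm_add_two_low z hz0).1
      rw [norm_div, norm_pow, div_le_iff₀ (by
        have := (norm_add_two_low z hz0).2
        positivity)]
      have h5 : (B * (2 + |z.im|)) ^ k = (2 * B) ^ k * ((2 + |z.im|) / 2) ^ k := by
        rw [← mul_pow]
        congr 1
        ring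
      have h6 : ((2 + |z.im|) / 2) ^ k ≤ ‖z + 2‖ ^ k := by gcongr
      calc ‖f z‖ ≤ (B * (2 + |z.im|)) ^ k := h3
        _ = (2 * B) ^ k * ((2 + |z.im|) / 2) ^ k := h5
        _ ≤ (2 * B) ^ k * ‖z + 2‖ ^ k := by gcongr
        _ ≤ C * ((2 * B) ^ k * ‖z + 2‖ ^ k) := le_mul_of_one_le_left (by positivity) hC
        _ = _ := by ring
    · intro z hz
      refine (hg1 z (by rw [hz]; norm_num)).trans ((h2 z (by rw [hz])).trans ?_)
      exact le_mul_of_one_le_right (by linarith) hcb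
  have hs0 : 0 ≤ s.re := by linarith
  rw [norm_div, norm_pow, div_le_iff₀ (by
        have := (norm_add_two_low s hs0).2
        positivity)] at key
  refine key.trans ?_
  have h3 : ‖s + 2‖ ≤ 5 / 2 * (2 + |s.im|) := by
    have := norm_add_two_up s hs0
    linarith
  calc C * (2 * B) ^ k * ‖s + 2‖ ^ k ≤ C * (2 * B) ^ k * (5 / 2 * (2 + |s.im|)) ^ k := by gcongr
    _ = C * (5 * B * (2 + |s.im|)) ^ k := by
        rw [mul_assoc, ← mul_pow]
        congr 2
        ring

end Pool.Agent.Hp428.TD
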