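import Pool.Agent.Hp428.TD.Pf
import Pool.Agent.Hp428.TD.PL
import Pool.Agent.Hp428.TD.Core

set_option autoImplicit false

/-!
# Bounds of good quality for the L-function of a good twist
-/

namespace Pool.Agent.Hp428.TD

open Complex
open Pool.Agent.Y705.QT (pf)
open Pool.Agent.Y19.QT (ap Twists IsLFun Mol Lq_fac)

variable {Q : ℕ} {lam : ℕ → ℝ}

theorem F_Lq (a b : ℤ) (hab : 4 * a ^ 3 + 27 * b ^ 2 ≠ 0) (T : Twists Q lam)
    (hQ : ∀ p : ℕ, p.Prime → (p : ℤ) ∣ 2 * (4 * a ^ 3 + 27 * b ^ 2) → p ∣ Q)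
    (hlam : ∀ p : ℕ, p.Prime → ¬ p ∣ Q → lam p = ap a b p / Real.sqrt p)
    (d : ℤ) (hd : Squarefree d) (F : ℂ → ℂ) (hF : IsLFun (a * d ^ 2) (b * d ^ 3) F)
    (z : ℂ) (hz : 0 ≤ z.re) :
    ‖F (1 + z)‖ ≤ 16 ^ Q.primeFactors.card * ‖T.Lq d (1 / 2 + z)‖ ∧
    ‖T.Lq d (1 / 2 + z)‖ ≤ 4 ^ Q.primeFactors.card * ‖F (1 + z)‖ := by
  obtain ⟨S, hS, hS2, hfac⟩ := Lq_fac a b hab T hQ hlam d hd F hF
  have hre : (1 / 2 + z : ℂ).re = 1 / 2 + z.re := by simp
  have h1 := hfac (1 / 2 + z) (by rw [hre]; linarith)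
  have e1 : (1 / 2 + z + 1 / 2 : ℂ) = 1 + z := by ring
  rw [e1] at h1
  have hre1 : (1 + z : ℂ).re = 1 + z.re := by simp
  have hp : ∀ p ∈ S, 1 / 16 ≤ ‖pf (a * d ^ 2) (b * d ^ 3) (1 + z) p‖ ∧
      ‖pf (a * d ^ 2) (b * d ^ 3) (1 + z) p‖ ≤ 4 := fun p hp =>
    pf_bds _ _ (Nat.prime_of_mem_primeFactors (hS hp)) (hS2 p hp) _ (by rw [hre1]; linarith)
  have h2 : (1 / 16 : ℝ) ^ Q.primeFactors.card ≤
      ‖∏ p ∈ S, pf (a * d ^ 2) (b * d ^ 3) (1 + z) p‖ := by
    rw [norm_prod]
    calc (1 / 16 : ℝ) ^ Q.primeFactors.card ≤ (1 / 16 : ℝ) ^ S.card :=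
          pow_le_pow_of_le_one (by norm_num) (by norm_num) (Finset.card_le_card hS)
      _ = ∏ _p ∈ S, (1 / 16 : ℝ) := by rw [Finset.prod_const]
      _ ≤ _ := Finset.prod_le_prod (fun _ _ => by norm_num) fun p h => (hp p h).1
  have h3 : ‖∏ p ∈ S, pf (a * d ^ 2) (b * d ^ 3) (1 + z) p‖ ≤ 4 ^ Q.primeFactors.card := by
    rw [norm_prod]
    calc ∏ p ∈ S, ‖pf (a * d ^ 2) (b * d ^ 3) (1 + z) p‖ ≤ ∏ _p ∈ S, (4 : ℝ) :=
          Finset.prod_le_prod (fun _ _ => norm_nonneg _) fun p h => (hp p h).2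
      _ = 4 ^ S.card := by rw [Finset.prod_const]
      _ ≤ _ := pow_le_pow_right₀ (by norm_num) (Finset.card_le_card hS)
  have h5 : ((1 / 16 : ℝ) ^ Q.primeFactors.card) * 16 ^ Q.primeFactors.card = 1 := by
    rw [← mul_pow]; norm_num
  rw [h1, norm_mul]
  have hF0 := norm_nonneg (F (1 + z))
  constructor
  · calc ‖F (1 + z)‖ = 16 ^ Q.primeFactors.card *
          (‖F (1 + z)‖ * (1 / 16 : ℝ) ^ Q.primeFactors.card) := by
          linear_combination (-‖F (1 + z)‖) * h5
      _ ≤ _ := by gcongr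
  · rw [mul_comm]
    gcongr

theorem el_two {L : ℝ} (hL : 1 ≤ L) (y : ℝ) : Real.log (2 * L) ≤ el L y := by
  unfold el
  rw [Real.log_mul (by norm_num) (by linarith), add_comm]
  have : Real.log 2 ≤ Real.log (2 + |y|) :=
    Real.log_le_log (by norm_num) (by have := abs_nonneg y; linarith)
  linarith

/-- constants are at most powers -/
theorem const_le {M L : ℝ} (hM : 1 ≤ M) (hL : 1 ≤ L) (y : ℝ) :
    M ≤ Real.exp (Real.log M / Real.log 2 * el L y) := by
  have h0 : 0 < Real.log 2 := Real.log_pos (by norm_num)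
  have h1 : Real.log 2 ≤ el L y :=
    (Real.log_le_log (by norm_num) (by linarith)).trans (el_two hL y)
  have h2 : Real.log M ≤ Real.log M / Real.log 2 * el L y := by
    have h3 : 0 ≤ Real.log M / Real.log 2 := div_nonneg (Real.log_nonneg hM) h0.le
    calc Real.log M = Real.log M / Real.log 2 * Real.log 2 := by field_simp
      _ ≤ _ := by gcongr
  calc M = Real.exp (Real.log M) := (Real.exp_log (by linarith)).symm
    _ ≤ _ := Real.exp_le_exp.2 h2

theorem exp_el {L : ℝ} (hL : 0 < L) (y : ℝ) (k : ℕ) :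
    Real.exp (k * el L y) = (L * (2 + |y|)) ^ k := by
  unfold el
  have : 0 < 2 + |y| := by have := abs_nonneg y; linarith
  rw [Real.exp_nat_mul, Real.exp_add, Real.exp_log hL, Real.exp_log this]

theorem rn_of (a b : ℤ) (hab : 4 * a ^ 3 + 27 * b ^ 2 ≠ 0) (T : Twists Q lam)
    (hQ : ∀ p : ℕ, p.Prime → (p : ℤ) ∣ 2 * (4 * a ^ 3 + 27 * b ^ 2) → p ∣ Q)
    (hlam : ∀ p : ℕ, p.Prime → ¬ p ∣ Q → lam p = ap a b p / Real.sqrt p)
    (K' K'' : ℕ) {K1 : ℝ} (hK1 : 1 ≤ K1) : ∃ K : ℝ, 1 ≤ K ∧ ∀ (d : ℤ) (F : ℂ → ℂ) (L : ℝ) (Y : ℕ),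
      Squarefree d → IsLFun (a * d ^ 2) (b * d ^ 3) F → 5 ≤ L →
      (∀ t : ℝ, ‖F (1 + t * I)‖ ≤ (L * (2 + |t|)) ^ K') →
      (∀ s0 : ℂ, K1 * el L s0.im ≤ 2 * L → 1 / 2 + K1 * el L s0.im / L ≤ s0.re →
        s0.re ≤ 1 + 1 / L → ‖T.Lq d s0 * Mol Q lam Y d s0 - 1‖ ≤ 1 / 2) →
      (∀ s0 : ℂ, 1 / 2 + 1 / L ≤ s0.re → s0.re ≤ 1 + 1 / L →
        ‖Mol Q lam Y d s0‖ ≤ Real.exp (K'' * el L s0.im)) →
      RN L K (fun z => F (1 + z)) := by
  set k := Q.primeFactors.card with hk
  obtain ⟨C8, A8, hC8, hell⟩ := Pool.Agent.Y500.QTZ4.ell_bound T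
  set M1 : ℝ := 16 ^ k * (4 * (5 * 4 ^ k) ^ (K' + 1)) with hM1
  have h4k : (1 : ℝ) ≤ 4 ^ k := one_le_pow₀ (by norm_num)
  have hM1' : 1 ≤ M1 := by
    have h1 : (1 : ℝ) ≤ 16 ^ k := one_le_pow₀ (by norm_num)
    have h2 : (1 : ℝ) ≤ (5 * 4 ^ k) ^ (K' + 1) := one_le_pow₀ (by linarith)
    rw [hM1]
    nlinarith
  set κ : ℝ := Real.log M1 / Real.log 2 with hκ
  have hl2 : 0 < Real.log 2 := Real.log_pos (by norm_num)
  have hκ0 : 0 ≤ κ := div_nonneg (Real.log_nonneg hM1') hl2.le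
  set K : ℝ := K1 + K' + K'' + 4 + 2 * k + κ with hK
  have hK'0 : (0 : ℝ) ≤ K' := Nat.cast_nonneg _
  have hK''0 : (0 : ℝ) ≤ K'' := Nat.cast_nonneg _
  have hk0 : (0 : ℝ) ≤ k := Nat.cast_nonneg _
  refine ⟨K, by linarith, fun d F L Y hd hF hL h2 h3 h4 => ?_⟩
  have hL0 : 0 < L := by linarith
  have hL1 : 1 ≤ L := by linarith
  have hnn : ∀ y, 0 ≤ el L y := fun y => el_nonneg hL1 y
  have hFL := F_Lq a b hab T hQ hlam d hd F hF
  have hup : ∀ s : ℂ, 1 / 2 ≤ s.re →
      ‖T.Lq d s‖ ≤ 4 * (5 * (4 ^ k * L) * (2 + |s.im|)) ^ (K' + 1) := by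
    have hB : 1 ≤ 4 ^ k * L := by nlinarith
    refine pl_strip (A := C8 * |(d : ℝ)| ^ A8 * T.c) hB (by norm_num) ?_ ?_ ?_ ?_
    · intro s hs
      exact (Pool.Agent.Y500.QTZ4.Lq_analytic T hd s hs).differentiableAt
    · intro s hs1 hs2
      have h5 := hell d s hd (by linarith) (by linarith)
      have h6 := Pool.Agent.Y180.QT12b2.Ep_bound T hd (s := s) (by linarith)
      have e : T.Lq d s = T.ell d s * Pool.Agent.Y180.QT12b2.Ep T d s := rfl
      rw [e, norm_mul]
      calc ‖T.ell d s‖ * ‖Pool.Agent.Y180.QT12b2.Ep T d s‖ ≤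
            (C8 * |(d : ℝ)| ^ A8 * Real.exp (2 * |s.im|)) * T.c := by gcongr
        _ = _ := by ring
    · intro t
      have h5 := (hFL (t * I) (by simp)).2
      have h6 := h2 t
      have ht : (1 : ℝ) ≤ L * (2 + |t|) := by
        have := abs_nonneg t
        nlinarith
      have h7 : (1 : ℝ) ≤ 4 ^ k * (L * (2 + |t|)) := by nlinarith
      calc ‖T.Lq d (1 / 2 + t * I)‖ ≤ 4 ^ k * ‖F (1 + t * I)‖ := h5
        _ ≤ 4 ^ k * (L * (2 + |t|)) ^ K' := by gcongr
        _ ≤ (4 ^ k) ^ (K' + 1) * (L * (2 + |t|)) ^ (K' + 1) :=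
            mul_le_mul (le_self_pow₀ h4k (by omega)) (pow_le_pow_right₀ ht (by omega))
              (by positivity) (by positivity)
        _ = _ := by
            rw [← mul_pow]
            congr 1
            ring
    · intro s hs
      exact Lq_up T hd hs
  refine ⟨?_, ?_, ?_, ?_⟩
  · intro z _
    exact (hF.1.comp (differentiable_id.const_add 1)).differentiableAt
  · intro z hz hFz
    have h5 := (hFL z (by linarith)).2
    have hFz' : F (1 + z) = 0 := hFz
    rw [hFz', norm_zero, mul_zero] at h5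
    have hre : (1 / 2 + z : ℂ).re = 1 / 2 + z.re := by simp
    have h6 := Lq_low T hd (s := 1 / 2 + z) (by rw [hre]; linarith)
    have h7 : 0 < ((1 + 1 / ((1 / 2 + z : ℂ).re - 1)) ^ 2)⁻¹ := by
      have : 0 < (1 / 2 + z : ℂ).re - 1 := by rw [hre]; linarith
      positivity
    linarith
  · intro z hz
    have hre : (1 / 2 + z : ℂ).re = 1 / 2 + z.re := by simp
    have him : (1 / 2 + z : ℂ).im = z.im := by simp
    have h5 := (hFL z hz).1
    have h6 := hup (1 / 2 + z) (by rw [hre]; linarith)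
    rw [him] at h6
    have h7 : ‖F (1 + z)‖ ≤ M1 * Real.exp ((K' + 1 : ℕ) * el L z.im) := by
      rw [exp_el hL0, hM1]
      calc ‖F (1 + z)‖ ≤ 16 ^ k * ‖T.Lq d (1 / 2 + z)‖ := h5
        _ ≤ 16 ^ k * (4 * (5 * (4 ^ k * L) * (2 + |z.im|)) ^ (K' + 1)) := by gcongr
        _ = _ := by
            have : 5 * (4 ^ k * L) * (2 + |z.im|) = (5 * 4 ^ k) * (L * (2 + |z.im|)) := by ring
            rw [this, mul_pow]
            ring
    refine h7.trans ?_
    have h8 := const_le hM1' hL1 z.im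
    calc M1 * Real.exp ((K' + 1 : ℕ) * el L z.im) ≤
          Real.exp (κ * el L z.im) * Real.exp ((K' + 1 : ℕ) * el L z.im) := by gcongr
      _ = Real.exp ((κ + (K' + 1)) * el L z.im) := by
          rw [← Real.exp_add]
          congr 1
          push_cast
          ring
      _ ≤ _ := by
          apply Real.exp_le_exp.2
          have := hnn z.im
          gcongr
          linarith
  · intro z hz hz2
    have hre : (1 / 2 + z : ℂ).re = 1 / 2 + z.re := by simp
    have him : (1 / 2 + z : ℂ).im = z.im := by simp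
    have h5 := (hFL z hz).2
    have hel := hnn z.im
    have hel2 := el_two hL1 z.im
    have hexp2 : 2 * L ≤ Real.exp (el L z.im) := by
      calc 2 * L = Real.exp (Real.log (2 * L)) := (Real.exp_log (by linarith)).symm
        _ ≤ _ := Real.exp_le_exp.2 hel2
    have hel1 : 1 ≤ el L z.im := by
      refine le_trans ?_ hel2
      rw [Real.le_log_iff_exp_le (by linarith)]
      have := Real.exp_one_lt_d9
      linarith
    -- the bound for `Lq`
    have key : Real.exp (-((K'' + 2) * el L z.im)) ≤ ‖T.Lq d (1 / 2 + z)‖ := by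
      rcases le_or_gt (1 + 1 / L) (1 / 2 + z : ℂ).re with h | h
      · have h1L : 0 < 1 / L := by positivity
        have h6 := Lq_low T hd (s := 1 / 2 + z) (by linarith)
        refine le_trans ?_ h6
        have h7 : 1 / ((1 / 2 + z : ℂ).re - 1) ≤ L := by
          rw [div_le_iff₀ (by linarith)]
          have h9 : 1 / L ≤ (1 / 2 + z : ℂ).re - 1 := by linarith
          calc (1 : ℝ) = L * (1 / L) := by field_simp
            _ ≤ _ := by gcongr
        have h9 : 0 ≤ 1 / ((1 / 2 + z : ℂ).re - 1) :=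
          div_nonneg (by norm_num) (by linarith)
        calc Real.exp (-((K'' + 2) * el L z.im)) ≤ Real.exp (-(2 * el L z.im)) := by
              apply Real.exp_le_exp.2
              nlinarith
          _ = (Real.exp (el L z.im) ^ 2)⁻¹ := by
              rw [Real.exp_neg, ← Real.exp_nat_mul]
              norm_num
          _ ≤ ((1 + 1 / ((1 / 2 + z : ℂ).re - 1)) ^ 2)⁻¹ := by
              apply inv_anti₀ (by positivity)
              apply pow_le_pow_left₀ (by positivity)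
              linarith
      · rw [hre] at h
        have h1L : 1 / L ≤ 1 / 5 := by
          rw [div_le_div_iff₀ hL0 (by norm_num)]
          linarith
        have hz3 : K * el L z.im ≤ L * z.re := by
          rcases hz2 with h7 | h7
          · exact h7
          · linarith
        have hKK : K1 * el L z.im ≤ K * el L z.im := by
          gcongr
          linarith
        have hz4 : K1 * el L z.im ≤ L * z.re := hKK.trans hz3
        have hz5 : L * z.re ≤ 2 * L := by nlinarith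
        have hz6 : K1 * el L z.im / L ≤ z.re := by
          rw [div_le_iff₀ hL0]
          linarith
        have hz7 : 1 / L ≤ z.re := by
          rw [div_le_iff₀ hL0]
          have : 1 ≤ K1 * el L z.im := by nlinarith
          linarith
        have h8 := h3 (1 / 2 + z) (by rw [him]; linarith) (by rw [him, hre]; linarith)
          (by rw [hre]; exact h.le)
        have h9 := h4 (1 / 2 + z) (by rw [hre]; linarith) (by rw [hre]; exact h.le)
        rw [him] at h9
        have h10 : 1 / 2 ≤ ‖T.Lq d (1 / 2 + z) * Mol Q lam Y d (1 / 2 + z)‖ := by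
          have h11 := norm_sub_norm_le (1 : ℂ) (1 - T.Lq d (1 / 2 + z) * Mol Q lam Y d (1 / 2 + z))
          rw [norm_one, norm_sub_rev, sub_sub_cancel] at h11
          linarith
        rw [norm_mul] at h10
        have h12 : 1 / 2 ≤ ‖T.Lq d (1 / 2 + z)‖ * Real.exp (K'' * el L z.im) :=
          h10.trans (by gcongr)
        have h13 : Real.exp (-((K'' + 2) * el L z.im)) * Real.exp (K'' * el L z.im) ≤ 1 / 2 := by
          rw [← Real.exp_add]
          have e : -((K'' + 2) * el L z.im) + K'' * el L z.im = -(2 * el L z.im) := by ring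
          rw [e, Real.exp_neg, inv_le_comm₀ (Real.exp_pos _) (by norm_num)]
          have := Real.add_one_le_exp (2 * el L z.im)
          linarith
        have h14 := h13.trans h12
        exact le_of_mul_le_mul_right h14 (Real.exp_pos _)
    have h6 : Real.exp (-((K'' + 2) * el L z.im)) ≤ 4 ^ k * ‖F (1 + z)‖ := key.trans h5
    have h7 : (4 : ℝ) ^ k ≤ Real.exp (2 * k * el L z.im) := by
      have h8 : (4 : ℝ) ≤ Real.exp (2 * el L z.im) := by
        have h9 : (2 : ℝ) ≤ Real.exp (el L z.im) := by linarith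
        calc (4 : ℝ) = 2 ^ 2 := by norm_num
          _ ≤ Real.exp (el L z.im) ^ 2 := by gcongr
          _ = _ := by rw [← Real.exp_nat_mul]; norm_num
      calc (4 : ℝ) ^ k ≤ Real.exp (2 * el L z.im) ^ k := by gcongr
        _ = _ := by
            rw [← Real.exp_nat_mul]
            congr 1
            ring
    have h8 : Real.exp (-((K'' + 2) * el L z.im)) ≤ Real.exp (2 * k * el L z.im) * ‖F (1 + z)‖ :=
      h6.trans (by gcongr)
    have h9 : Real.exp (-((K'' + 2 + 2 * k) * el L z.im)) ≤ ‖F (1 + z)‖ := by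
      have e : Real.exp (-((K'' + 2) * el L z.im)) =
          Real.exp (2 * k * el L z.im) * Real.exp (-((K'' + 2 + 2 * k) * el L z.im)) := by
        rw [← Real.exp_add]
        congr 1
        ring
      rw [e] at h8
      exact le_of_mul_le_mul_left h8 (Real.exp_pos _)
    refine le_trans ?_ h9
    apply Real.exp_le_exp.2
    have : (K'' + 2 + 2 * k) * el L z.im ≤ K * el L z.im := by
      gcongr
      linarith
    linarith

end Pool.Agent.Hp428.TD
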