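import Pool.Agent.Hp428.TD.Law
import Pool.Agent.Hp428.TD.Rnof
import Pool.Agent.Y19.QT.Lin2

set_option autoImplicit false

/-!
# From a completed L-function to the local situation
-/

namespace Pool.Agent.Hp428.TD

open Complex Filter Topology
open Pool.Agent.Y19.QT (IsLFun isLFun_uniq)
open scoped ComplexConjugate

/-- multiplication by a function bounded from both sides -/
theorem RN.mulE {L K c : ℝ} {R E : ℂ → ℂ} (hL : 1 ≤ L) (hc : 1 ≤ c) (h : RN L K R)
    (hE1 : ∀ z : ℂ, 0 ≤ z.re → DifferentiableAt ℂ E z)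
    (hE2 : ∀ z : ℂ, 0 ≤ z.re → ‖E z‖ ≤ c ∧ 1 ≤ c * ‖E z‖) :
    RN L (K + Real.log c / Real.log 2) (fun z => E z * R z) := by
  have hl2 : 0 < Real.log 2 := Real.log_pos (by norm_num)
  have hκ0 : 0 ≤ Real.log c / Real.log 2 := div_nonneg (Real.log_nonneg hc) hl2.le
  refine ⟨fun z hz => (hE1 z hz).mul (h.an z hz), fun z hz => ?_, fun z hz => ?_,
    fun z hz hz2 => ?_⟩
  · refine mul_ne_zero ?_ (h.nz z hz)
    intro h0
    have h1 := (hE2 z (by linarith)).2
    rw [h0, norm_zero, mul_zero] at h1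
    linarith
  · have h1 := (hE2 z hz).1
    have h2 := h.up z hz
    have h3 := const_le hc hL z.im
    rw [norm_mul]
    calc ‖E z‖ * ‖R z‖ ≤ Real.exp (Real.log c / Real.log 2 * el L z.im) *
          Real.exp (K * el L z.im) := by
          have := h1.trans h3
          gcongr
      _ = _ := by
          rw [← Real.exp_add]
          congr 1
          ring
  · have hel := el_nonneg hL z.im
    have h1 := (hE2 z hz).2
    have h2 : Real.exp (-(K * el L z.im)) ≤ ‖R z‖ := by
      refine h.low z hz ?_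
      rcases hz2 with h4 | h4
      · left
        refine le_trans ?_ h4
        gcongr
        linarith
      · exact Or.inr h4
    have h3 := const_le hc hL z.im
    rw [norm_mul]
    have h4 : Real.exp (-(Real.log c / Real.log 2 * el L z.im)) ≤ ‖E z‖ := by
      rw [Real.exp_neg, inv_le_iff_one_le_mul₀ (Real.exp_pos _)]
      calc (1 : ℝ) ≤ c * ‖E z‖ := h1
        _ ≤ Real.exp (Real.log c / Real.log 2 * el L z.im) * ‖E z‖ := by gcongr
        _ = _ := mul_comm _ _
    calc Real.exp (-((K + Real.log c / Real.log 2) * el L z.im)) =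
          Real.exp (-(Real.log c / Real.log 2 * el L z.im)) * Real.exp (-(K * el L z.im)) := by
          rw [← Real.exp_add]
          congr 1
          ring
      _ ≤ _ := by gcongr

/-- monotonicity in the constant -/
theorem RN.mono {L K K' : ℝ} {R : ℂ → ℂ} (hL : 1 ≤ L) (hK : K ≤ K') (h : RN L K R) :
    RN L K' R := by
  refine ⟨h.an, h.nz, fun z hz => (h.up z hz).trans ?_, fun z hz hz2 => le_trans ?_ (h.low z hz ?_)⟩
  · have := el_nonneg hL z.im
    apply Real.exp_le_exp.2
    gcongr
  · have := el_nonneg hL z.im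
    apply Real.exp_le_exp.2
    have : K * el L z.im ≤ K' * el L z.im := by gcongr
    linarith
  · rcases hz2 with h4 | h4
    · left
      have := el_nonneg hL z.im
      refine le_trans ?_ h4
      gcongr
    · exact Or.inr h4

theorem gq_of {a b d : ℤ} {c : ℝ} {M F0 : ℂ → ℂ} (h : IsCompleted a b d c M)
    (hF0 : IsLFun (a * d ^ 2) (b * d ^ 3) F0) {L K κ : ℝ} (hL : 5 ≤ L) (hK : 1 ≤ K) (hκ : 0 ≤ κ)
    (hd0 : d ≠ 0) (hdL : Real.log |(d : ℝ)| ≤ L) (hdl : L - κ * Real.log L ≤ Real.log |(d : ℝ)|)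
    (hrn : RN L K (fun z => F0 (1 + z))) :
    ∃ (Q : ℝ) (R G : ℂ → ℂ) (ω : ℂ), ω ≠ 0 ∧
      GQ L (K + Real.log (max 1 c) / Real.log 2 + κ + Real.log (max 1 c) + 3) Q R G ∧
      G = fun z => ω * M (1 + z) := by
  obtain ⟨w, hw, hfe⟩ := h.fe
  obtain ⟨q, E, F, hq, hq1, hq2, hE, hEb, hF, hfac⟩ := h.euler
  have hFF : F = F0 := isLFun_uniq hF hF0
  subst hFF
  set c1 := max 1 c with hc1
  have hc11 : 1 ≤ c1 := le_max_left _ _
  have hcc : c ≤ c1 := le_max_right _ _
  have hl2 : 0 < Real.log 2 := Real.log_pos (by norm_num)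
  have hlc : 0 ≤ Real.log c1 := Real.log_nonneg hc11
  have hκ0 : 0 ≤ Real.log c1 / Real.log 2 := div_nonneg hlc hl2.le
  have hL0 : 0 < L := by linarith
  have hL1 : 1 ≤ L := by linarith
  have hLL : 1 ≤ Real.log L := by
    rw [Real.le_log_iff_exp_le hL0]
    have := Real.exp_one_lt_d9
    linarith
  have hpi := Real.pi_pos
  have hd1 : 0 < |(d : ℝ)| := abs_pos.2 (by exact_mod_cast hd0)
  have hc0 : 0 < c := by
    by_contra hno
    push Not at hno
    have : c * |(d : ℝ)| ≤ 0 := mul_nonpos_of_nonpos_of_nonneg hno hd1.le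
    linarith
  -- the sign
  obtain ⟨ω, hω, hωs⟩ : ∃ ω : ℂ, ω ≠ 0 ∧ ω * w = conj ω := by
    rcases hw with rfl | rfl
    · exact ⟨1, one_ne_zero, by simp⟩
    · exact ⟨I, I_ne_zero, by simp⟩
  -- the factorisation in the half plane
  have hopen : IsOpen {s : ℂ | (3 : ℝ) / 4 < s.re} := isOpen_lt continuous_const continuous_re
  have hfac' : ∀ s : ℂ, 3 / 4 < s.re →
      M s = ((q / (2 * Real.pi) : ℝ) : ℂ) ^ s * Gamma s * (E s * F s) := by
    have hQ0 : ((q / (2 * Real.pi) : ℝ) : ℂ) ≠ 0 := by
      exact_mod_cast (by positivity : (q / (2 * Real.pi) : ℝ) ≠ 0)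
    have h1 : AnalyticOnNhd ℂ M {s : ℂ | (3 : ℝ) / 4 < s.re} :=
      h.entire.differentiableOn.analyticOnNhd hopen
    have h2 : AnalyticOnNhd ℂ
        (fun s => ((q / (2 * Real.pi) : ℝ) : ℂ) ^ s * Gamma s * (E s * F s))
        {s : ℂ | (3 : ℝ) / 4 < s.re} := by
      refine DifferentiableOn.analyticOnNhd (fun s hs => ?_) hopen
      have hs' : (3 : ℝ) / 4 < s.re := hs
      have g1 : DifferentiableAt ℂ (fun s : ℂ => ((q / (2 * Real.pi) : ℝ) : ℂ) ^ s) s :=
        DifferentiableAt.const_cpow differentiableAt_id (Or.inl hQ0)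
      have g2 : DifferentiableAt ℂ Gamma s := by
        refine differentiableAt_Gamma s fun m hm => ?_
        have h3 := congrArg Complex.re hm
        simp at h3
        have : (0 : ℝ) ≤ m := Nat.cast_nonneg m
        linarith
      have g3 : DifferentiableAt ℂ E s := (hE s hs).differentiableAt (hopen.mem_nhds hs)
      exact ((g1.mul g2).mul (g3.mul (hF.1 s))).differentiableWithinAt
    have h3 := h1.eqOn_of_preconnected_of_eventuallyEq h2
      (convex_halfSpace_re_gt _).isPreconnected
      (show (2 : ℂ) ∈ {s : ℂ | (3 : ℝ) / 4 < s.re} by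
        show (3 : ℝ) / 4 < (2 : ℂ).re
        norm_num) (by
        have hmem : {s : ℂ | (3 : ℝ) / 2 < s.re} ∈ 𝓝 (2 : ℂ) :=
          (isOpen_lt continuous_const continuous_re).mem_nhds (by
            show (3 : ℝ) / 2 < (2 : ℂ).re
            norm_num)
        filter_upwards [hmem] with s hs
        exact hfac s hs)
    exact fun s hs => h3 hs
  refine ⟨q / (2 * Real.pi), fun z => E (1 + z) * F (1 + z), fun z => ω * M (1 + z), ω, hω, ?_, rfl⟩
  have hre : ∀ z : ℂ, (1 + z).re = 1 + z.re := fun z => by simp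
  refine ⟨?_, by positivity, ?_, ?_, ?_, ?_⟩
  · refine RN.mono hL1 (K := K + Real.log c1 / Real.log 2) (by nlinarith) ?_
    refine RN.mulE hL1 hc11 hrn (E := fun z => E (1 + z)) ?_ ?_
    · intro z hz
      have h1 : DifferentiableAt ℂ E (1 + z) :=
        (hE (1 + z) (by show (3 : ℝ) / 4 < (1 + z).re; rw [hre]; linarith)).differentiableAt
          (hopen.mem_nhds (by show (3 : ℝ) / 4 < (1 + z).re; rw [hre]; linarith))
      exact h1.comp z (differentiableAt_id.const_add 1)
    · intro z hz
      obtain ⟨h1, h2⟩ := hEb (1 + z) (by rw [hre]; linarith)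
      refine ⟨h1.trans hcc, h2.trans ?_⟩
      gcongr
  · -- the conductor
    have h1 : Real.log q ≤ Real.log c1 + L := by
      have h2 : Real.log q ≤ Real.log (c1 * |(d : ℝ)|) := by
        apply Real.log_le_log hq
        refine hq2.trans ?_
        gcongr
      rw [Real.log_mul (by linarith) hd1.ne'] at h2
      linarith
    have h3 : L - κ * Real.log L - Real.log c1 ≤ Real.log q := by
      have h4 : Real.log |(d : ℝ)| ≤ Real.log (c1 * q) := by
        apply Real.log_le_log hd1
        refine hq1.trans ?_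
        gcongr
      rw [Real.log_mul (by linarith) hq.ne'] at h4
      linarith
    have h5 : Real.log (q / (2 * Real.pi)) = Real.log q - Real.log (2 * Real.pi) :=
      Real.log_div hq.ne' (by positivity)
    have h6 : 0 ≤ Real.log (2 * Real.pi) := Real.log_nonneg (by linarith [Real.pi_gt_three])
    have h7 : Real.log (2 * Real.pi) ≤ 2 := by
      rw [Real.log_le_iff_le_exp (by positivity)]
      have h8 := Real.pi_lt_d2
      have h9 : (2.7182818283 : ℝ) < Real.exp 1 := Real.exp_one_gt_d9
      have h10 : Real.exp 2 = Real.exp 1 * Real.exp 1 := by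
        rw [← Real.exp_add]
        norm_num
      rw [h10]
      nlinarith
    rw [h5, abs_le]
    have h11 : (κ + Real.log c1 + 2) ≤
        (K + Real.log c1 / Real.log 2 + κ + Real.log c1 + 3) := by linarith
    have h12 : κ * Real.log L + Real.log c1 + 2 ≤
        (K + Real.log c1 / Real.log 2 + κ + Real.log c1 + 3) * Real.log L := by
      have h13 : κ * Real.log L + Real.log c1 + 2 ≤ (κ + Real.log c1 + 2) * Real.log L := by
        nlinarith
      exact h13.trans (by gcongr)
    constructor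
    · linarith
    · have h14 : 0 ≤ κ * Real.log L := by positivity
      linarith
  · exact (h.entire.comp (differentiable_id.const_add 1)).const_mul ω
  · intro z
    have e1 : (1 : ℂ) + -(conj z) = 2 - conj (1 + z) := by
      rw [map_add, map_one]
      ring
    show ω * M (1 + -(conj z)) = conj (ω * M (1 + z))
    rw [e1, hfe, h.real, map_mul, ← mul_assoc, hωs]
  · refine ⟨ω * ((q / (2 * Real.pi) : ℝ) : ℂ), mul_ne_zero hω (by
      exact_mod_cast (by positivity : (q / (2 * Real.pi) : ℝ) ≠ 0)), fun z hz => ?_⟩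
    have h1 := hfac' (1 + z) (by rw [hre]; linarith)
    have hQ0 : ((q / (2 * Real.pi) : ℝ) : ℂ) ≠ 0 := by
      exact_mod_cast (by positivity : (q / (2 * Real.pi) : ℝ) ≠ 0)
    show ω * M (1 + z) = _
    rw [h1, Complex.cpow_add _ _ hQ0, Complex.cpow_one]
    ring

end Pool.Agent.Hp428.TD
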