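import Pool.Agent.Y19.QT.Fac
import Pool.Agent.Y500.QTZ4
import Pool.Agent.Y705.QT0

set_option autoImplicit false

/-!
# Bounds for the Euler factors and for the Dirichlet series
-/

namespace Pool.Agent.Hp428.TD

open Complex
open Pool.Agent.Y705.QT (pf ap_abs)
open Pool.Agent.Y19.QT (quad_lb ap Twists)
open Pool.Agent.Y500.QTZ4 (Dv Dv_summable cx_norm mj mj_le Lq_mul)

theorem pf_bds (a b : ℤ) {p : ℕ} (hp : p.Prime) (hp2 : p ≠ 2) (s : ℂ) (hs : 1 ≤ s.re) :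
    1 / 16 ≤ ‖pf a b s p‖ ∧ ‖pf a b s p‖ ≤ 4 := by
  have hp0 : (p : ℂ) ≠ 0 := by exact_mod_cast hp.ne_zero
  have hp1 : (2 : ℝ) ≤ p := by exact_mod_cast hp.two_le
  have hsq : (0 : ℝ) < Real.sqrt p := Real.sqrt_pos.2 (by linarith)
  have hsq2 : (Real.sqrt p : ℂ) * (Real.sqrt p : ℂ) = p := by
    rw [← ofReal_mul, Real.mul_self_sqrt (by linarith)]
    simp
  set y : ℂ := (Real.sqrt p : ℂ) * (p : ℂ) ^ (-s) with hy
  have hyn : ‖y‖ ≤ 3 / 4 := by
    rw [hy, norm_mul, norm_real, Real.norm_eq_abs, abs_of_pos hsq, norm_natCast_cpow_of_pos hp.pos,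
      neg_re]
    have h1 : (p : ℝ) ^ (-s.re) ≤ (p : ℝ) ^ (-1 : ℝ) :=
      Real.rpow_le_rpow_of_exponent_le (by linarith) (by linarith)
    refine (mul_le_mul_of_nonneg_left h1 hsq.le).trans ?_
    rw [Real.rpow_neg_one, ← div_eq_mul_inv, div_le_iff₀ (by linarith)]
    rw [Real.sqrt_le_left (by positivity)]
    nlinarith
  have ht : |(ap a b p : ℝ) / Real.sqrt p| ≤ 2 := by
    rw [abs_div, abs_of_pos hsq, div_le_iff₀ hsq]
    exact Pool.Agent.Y203.QTZ5.hasse a b hp hp2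
  have h := quad_lb _ ht y (by linarith)
  have e : pf a b s p = 1 - (((ap a b p : ℝ) / Real.sqrt p : ℝ) : ℂ) * y + y ^ 2 := by
    unfold pf
    have e4 : (p : ℂ) ^ (1 - 2 * s) = p * ((p : ℂ) ^ (-s)) ^ 2 := by
      rw [← Complex.cpow_nat_mul, sub_eq_add_neg, Complex.cpow_add _ _ hp0, Complex.cpow_one]
      congr 2
      push_cast
      ring
    rw [e4, hy]
    have hsc : (Real.sqrt p : ℂ) ≠ 0 := by exact_mod_cast hsq.ne'
    push_cast
    have e5 : (ap a b p : ℂ) / (Real.sqrt p : ℂ) * ((Real.sqrt p : ℂ) * (p : ℂ) ^ (-s)) =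
        (ap a b p : ℂ) * (p : ℂ) ^ (-s) := by field_simp
    rw [e5, mul_pow, pow_two (Real.sqrt p : ℂ), hsq2]
  have hy0 := norm_nonneg y
  rw [e]
  constructor
  · refine le_trans ?_ h
    have h1 : 1 / 4 ≤ 1 - ‖y‖ := by linarith
    nlinarith
  · have h1 : ‖(((ap a b p : ℝ) / Real.sqrt p : ℝ) : ℂ) * y‖ ≤ 2 * (3 / 4) := by
      rw [norm_mul, norm_real, Real.norm_eq_abs]
      exact mul_le_mul ht hyn hy0 (by norm_num)
    have h2 : ‖y ^ 2‖ ≤ 1 := by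
      rw [norm_pow]
      nlinarith
    have h3 := norm_add_le (1 - (((ap a b p : ℝ) / Real.sqrt p : ℝ) : ℂ) * y) (y ^ 2)
    have h4 := norm_sub_le (1 : ℂ) ((((ap a b p : ℝ) / Real.sqrt p : ℝ) : ℂ) * y)
    rw [norm_one] at h4
    linarith

/-- `∑ d(n) n^{-σ} = ζ(σ)²` is at most `(1 + 1/(σ-1))²` -/
theorem Dv_le {σ : ℝ} (hσ : 1 < σ) :
    ∑' n, ‖LSeries.term Dv (σ : ℂ) n‖ ≤ (1 + 1 / (σ - 1)) ^ 2 := by
  have hσ' : 1 < (σ : ℂ).re := by simpa using hσ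
  have h1 : LSeriesSummable (1 : ℕ → ℂ) (σ : ℂ) := LSeriesSummable_one_iff.mpr hσ'
  have e : (LSeries.convolution (1 : ℕ → ℂ) (1 : ℕ → ℂ)) = Dv := by
    rw [LSeries.convolution_def]
    funext n
    simp only [Pi.one_apply, mul_one, Finset.sum_const, nsmul_eq_mul, Dv]
    rw [← Nat.map_div_right_divisors, Finset.card_map]
  have h2 : LSeries Dv (σ : ℂ) = LSeries (1 : ℕ → ℂ) σ * LSeries (1 : ℕ → ℂ) σ := by
    rw [← e]
    exact LSeries_convolution' h1 h1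
  have h3 : ∀ n, LSeries.term Dv (σ : ℂ) n = ((‖LSeries.term Dv (σ : ℂ) n‖ : ℝ) : ℂ) := by
    intro n
    rw [LSeries.norm_term_eq, LSeries.term_def]
    split_ifs with hn
    · simp
    · rw [Dv, Complex.norm_natCast, Complex.ofReal_re]
      push_cast
      rw [Complex.ofReal_cpow (Nat.cast_nonneg _)]
      simp
  have h4 : LSeries Dv (σ : ℂ) = ((∑' n, ‖LSeries.term Dv (σ : ℂ) n‖ : ℝ) : ℂ) := by
    rw [Complex.ofReal_tsum]
    exact tsum_congr h3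
  have h5 : ∑' n, ‖LSeries.term Dv (σ : ℂ) n‖ = ‖LSeries (1 : ℕ → ℂ) σ‖ ^ 2 := by
    have h6 : ‖LSeries Dv (σ : ℂ)‖ = ∑' n, ‖LSeries.term Dv (σ : ℂ) n‖ := by
      rw [h4, Complex.norm_real, Real.norm_eq_abs, abs_of_nonneg]
      exact tsum_nonneg fun n => norm_nonneg _
    rw [← h6, h2, norm_mul, pow_two]
  rw [h5]
  refine pow_le_pow_left₀ (norm_nonneg _) ?_ 2
  have hs : Summable (fun n : ℕ => (n : ℝ) ^ (-σ)) := Real.summable_nat_rpow.mpr (by linarith)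
  refine (tsum_of_norm_bounded hs.hasSum fun n => ?_).trans
    (Pool.Agent.Y705.QT0.zeta_le hσ)
  rw [LSeries.norm_term_eq]
  split_ifs with hn
  · positivity
  · simp only [Pi.one_apply, norm_one, Complex.ofReal_re]
    rw [Real.rpow_neg (Nat.cast_nonneg _), one_div]

variable {Q : ℕ} {lam : ℕ → ℝ}

/-- lower bound in the region of absolute convergence -/
theorem Lq_low (T : Twists Q lam) {d : ℤ} (hd : Squarefree d) {s : ℂ} (hs : 1 < s.re) :
    ((1 + 1 / (s.re - 1)) ^ 2)⁻¹ ≤ ‖T.Lq d s‖ := by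
  have h1 := Lq_mul T hd hs
  have h2 : ‖LSeries (Pool.Agent.Y180.QT12b2.cx (mj Q lam d)) s‖ ≤ (1 + 1 / (s.re - 1)) ^ 2 :=
    (cx_norm (mj_le T.hecke d) hs rfl).trans (Dv_le hs)
  have h3 : ‖T.Lq d s‖ * ‖LSeries (Pool.Agent.Y180.QT12b2.cx (mj Q lam d)) s‖ = 1 := by
    rw [← norm_mul, h1, norm_one]
  have h4 : 0 < (1 + 1 / (s.re - 1)) ^ 2 := by
    have : 0 < s.re - 1 := by linarith
    positivity
  rw [inv_le_iff_one_le_mul₀ h4]
  calc (1 : ℝ) = ‖T.Lq d s‖ * ‖LSeries (Pool.Agent.Y180.QT12b2.cx (mj Q lam d)) s‖ := h3.symm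
    _ ≤ _ := mul_le_mul_of_nonneg_left h2 (norm_nonneg _)

/-- upper bound in the region of absolute convergence -/
theorem Lq_up (T : Twists Q lam) {d : ℤ} (hd : Squarefree d) {s : ℂ} (hs : 5 / 2 ≤ s.re) :
    ‖T.Lq d s‖ ≤ 4 := by
  have h1 := Pool.Agent.Y180.QT12b2.Lq_eq T hd
    (fun s hs => Pool.Agent.Y703.QT8.ell_dir T hd hs) (s := s) (by linarith)
  have hl : ∀ n : ℕ, |lam n * Pool.Agent.H306R2.RZ.js d n| ≤ (n.divisors.card : ℝ) := by
    intro n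
    rw [abs_mul]
    have h1 := (Pool.Agent.Y180.QT12b1.T12b1 Q lam T.hecke).2.1 n
    calc |lam n| * |Pool.Agent.H306R2.RZ.js d n| ≤ |lam n| * 1 :=
          mul_le_mul_of_nonneg_left (Pool.Agent.Y180.QT12b2.js_le d n) (abs_nonneg _)
      _ ≤ _ := by rw [mul_one]; exact h1
  rw [h1]
  refine (cx_norm hl (σ := s.re) (by linarith) rfl).trans ((Dv_le (by linarith)).trans ?_)
  have h2 : 1 / (s.re - 1) ≤ 1 := by
    rw [div_le_one (by linarith)]
    linarith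
  have h3 : 0 ≤ 1 / (s.re - 1) := div_nonneg (by norm_num) (by linarith)
  nlinarith

end Pool.Agent.Hp428.TD
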