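import Pool.Agent.Hp428.TD.Law
import Pool.Agent.Hp428.TD.Pf

set_option autoImplicit false

/-!
# Existence of the completed L-functions
-/

namespace Pool.Agent.Hp428.TD

open Complex MeasureTheory Filter Topology Set
open Pool.Agent.Y705.QT (pf pf_diff)
open Pool.Agent.Y19.QT (quad_lb ap Twists IsLFun Lq_fac)
open Pool.Agent.Y180.QT12b2 (cx tsum_eq summable_quarter Ep Ep_bound Ep_diff)
open Pool.Agent.Y703.QT8 (MM mm_zero mm_diff ell_eq q_pos q_cast q_ne gf_conj F_inv)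
open scoped ComplexConjugate

variable {Q : ℕ} {lam : ℕ → ℝ}

theorem pf_bds2 (a b : ℤ) {p : ℕ} (hp : p.Prime) (hp2 : p ≠ 2) (s : ℂ) (hs : 3 / 4 ≤ s.re) :
    1 / 64 ≤ ‖pf a b s p‖ ∧ ‖pf a b s p‖ ≤ 4 := by
  have hp0 : (p : ℂ) ≠ 0 := by exact_mod_cast hp.ne_zero
  have hp1 : (2 : ℝ) ≤ p := by exact_mod_cast hp.two_le
  have hsq : (0 : ℝ) < Real.sqrt p := Real.sqrt_pos.2 (by linarith)
  have hsq2 : (Real.sqrt p : ℂ) * (Real.sqrt p : ℂ) = p := by
    rw [← ofReal_mul, Real.mul_self_sqrt (by linarith)]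
    simp
  set y : ℂ := (Real.sqrt p : ℂ) * (p : ℂ) ^ (-s) with hy
  have hyn : ‖y‖ ≤ 7 / 8 := by
    rw [hy, norm_mul, norm_real, Real.norm_eq_abs, abs_of_pos hsq, norm_natCast_cpow_of_pos hp.pos,
      neg_re]
    have h1 : (p : ℝ) ^ (-s.re) ≤ (p : ℝ) ^ (-(3 / 4) : ℝ) :=
      Real.rpow_le_rpow_of_exponent_le (by linarith) (by linarith)
    refine (mul_le_mul_of_nonneg_left h1 hsq.le).trans ?_
    rw [Real.sqrt_eq_rpow, ← Real.rpow_add (by linarith)]
    have e : (1 / 2 + -(3 / 4) : ℝ) = -(1 / 4) := by norm_num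
    rw [e]
    have h2 : (p : ℝ) ^ (-(1 / 4) : ℝ) ≤ (2 : ℝ) ^ (-(1 / 4) : ℝ) :=
      Real.rpow_le_rpow_of_nonpos (by norm_num) hp1 (by norm_num)
    refine h2.trans ?_
    have h3 : ((2 : ℝ) ^ (-(1 / 4) : ℝ)) ^ 4 ≤ (7 / 8) ^ 4 := by
      rw [← Real.rpow_natCast, ← Real.rpow_mul (by norm_num)]
      have e2 : (-(1 / 4) * ((4 : ℕ) : ℝ) : ℝ) = -1 := by norm_num
      rw [e2, Real.rpow_neg_one]
      norm_num
    exact le_of_pow_le_pow_left₀ (by norm_num) (by norm_num) h3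
  have ht : |(ap a b p : ℝ) / Real.sqrt p| ≤ 2 := by
    rw [abs_div, abs_of_pos hsq, div_le_iff₀ hsq]
    exact Pool.Agent.Y203.QTZ5.hasse a b hp hp2
  have h := quad_lb _ ht y (by linarith)
  have e : pf a b s p = 1 - (((ap a b p : ℝ) / Real.sqrt p : ℝ) : ℂ) * y + y ^ 2 := by
    unfold pf
    have e4 : (p : ℂ) ^ (1 - 2 * s) = p * ((p : ℂ) ^ (-s)) ^ 2 := by
      rw [← Complex.cpow_nat_mul, sub_eq_add_neg, Complex.cpow_add _ _ hp0, Complex.cpow_one]
      congr 2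
      push_cast
      ring
    rw [e4, hy]
    have hsc : (Real.sqrt p : ℂ) ≠ 0 := by exact_mod_cast hsq.ne'
    push_cast
    have e5 : (ap a b p : ℂ) / (Real.sqrt p : ℂ) * ((Real.sqrt p : ℂ) * (p : ℂ) ^ (-s)) =
        (ap a b p : ℂ) * (p : ℂ) ^ (-s) := by field_simp
    rw [e5, mul_pow, pow_two (Real.sqrt p : ℂ), hsq2]
  have hy0 := norm_nonneg y
  rw [e]
  constructor
  · refine le_trans ?_ h
    have h1 : 1 / 8 ≤ 1 - ‖y‖ := by linarith
    nlinarith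
  · have h1 : ‖(((ap a b p : ℝ) / Real.sqrt p : ℝ) : ℂ) * y‖ ≤ 2 * (7 / 8) := by
      rw [norm_mul, norm_real, Real.norm_eq_abs]
      exact mul_le_mul ht hyn hy0 (by norm_num)
    have h2 : ‖y ^ 2‖ ≤ 1 := by
      rw [norm_pow]
      nlinarith
    have h3 := norm_add_le (1 - (((ap a b p : ℝ) / Real.sqrt p : ℝ) : ℂ) * y) (y ^ 2)
    have h4 := norm_sub_le (1 : ℂ) ((((ap a b p : ℝ) / Real.sqrt p : ℝ) : ℂ) * y)
    rw [norm_one] at h4
    linarith

/-- the Dirichlet series of `e` -/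
noncomputable def Ee (T : Twists Q lam) (d : ℤ) (s : ℂ) : ℂ :=
  ∑' a : ℕ, (T.e d a : ℂ) * (a : ℂ) ^ (-s)

theorem Ee_term (T : Twists Q lam) {d : ℤ} (hd : Squarefree d) {s : ℂ} (hs : 1 / 4 ≤ s.re) (a : ℕ) :
    ‖(T.e d a : ℂ) * (a : ℂ) ^ (-s)‖ ≤ |T.e d a| * (a : ℝ) ^ (-(1 / 4) : ℝ) := by
  by_cases ha : a = 0
  · rw [ha, (T.e_zero d hd).1]
    simp
  · have ha1 : (1 : ℝ) ≤ a := by exact_mod_cast Nat.one_le_iff_ne_zero.2 ha
    rw [norm_mul, Complex.norm_real, Real.norm_eq_abs,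
      Complex.norm_natCast_cpow_of_pos (Nat.pos_of_ne_zero ha)]
    refine mul_le_mul_of_nonneg_left ?_ (abs_nonneg _)
    refine Real.rpow_le_rpow_of_exponent_le ha1 ?_
    rw [Complex.neg_re]
    linarith

theorem Ee_bound (T : Twists Q lam) {d : ℤ} (hd : Squarefree d) {s : ℂ} (hs : 1 / 4 ≤ s.re) :
    ‖Ee T d s‖ ≤ T.c := by
  have h1 := T.e_sum d hd
  refine (tsum_of_norm_bounded h1.1.hasSum fun a => Ee_term T hd hs a).trans h1.2

theorem Ee_diff (T : Twists Q lam) {d : ℤ} (hd : Squarefree d) :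
    DifferentiableOn ℂ (Ee T d) {s : ℂ | 1 / 4 < s.re} := by
  unfold Ee
  refine differentiableOn_tsum_of_summable_norm (T.e_sum d hd).1 (fun a => ?_)
    (isOpen_lt continuous_const Complex.continuous_re) fun a s hs => Ee_term T hd (le_of_lt hs) a
  by_cases ha : a = 0
  · rw [ha, (T.e_zero d hd).1]
    simp only [Complex.ofReal_zero, zero_mul]
    exact differentiableOn_const 0
  · intro s _
    refine DifferentiableAt.differentiableWithinAt ?_
    refine (differentiableAt_const _).mul ?_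
    refine DifferentiableAt.const_cpow (by fun_prop) (Or.inl ?_)
    exact_mod_cast ha

theorem Ee_mul (T : Twists Q lam) {d : ℤ} (hd : Squarefree d) {s : ℂ} (hs : 1 / 4 ≤ s.re) :
    Ee T d s * Ep T d s = 1 := by
  have he := summable_quarter (T.e_sum d hd).1 (s := s) hs
  have he' := summable_quarter (T.e'_sum d hd).1 (s := s) hs
  unfold Ee Ep
  rw [tsum_eq (T.e_zero d hd).1, tsum_eq (T.e_zero d hd).2, ← LSeries_convolution' he he']
  have h3 : LSeries.convolution (cx (T.e d)) (cx (T.e' d)) = LSeries.delta := by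
    rw [LSeries.convolution_def]
    funext n
    by_cases hn : n = 0
    · subst hn
      simp [LSeries.delta]
    · have h4 := T.e_inv d hd n (Nat.one_le_iff_ne_zero.2 hn)
      simp only [cx, LSeries.delta]
      have h5 : (∑ x ∈ n.divisorsAntidiagonal, (T.e d x.1 : ℂ) * (T.e' d x.2 : ℂ)) =
          ((∑ x ∈ n.divisorsAntidiagonal, T.e d x.1 * T.e' d x.2 : ℝ) : ℂ) := by push_cast; rfl
      rw [h5, h4]
      split_ifs <;> norm_num
  rw [h3, LSeries_delta]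
  rfl

theorem MM_conj (T : Twists Q lam) (d : ℤ) (s : ℂ) : MM T d 0 (conj s) = conj (MM T d 0 s) := by
  have hpi := Real.pi_pos
  rw [mm_zero, mm_zero]
  unfold mellin
  rw [← integral_conj]
  refine setIntegral_congr_fun measurableSet_Ioi fun u (hu : 0 < u) => ?_
  simp only [smul_eq_mul, map_mul]
  have e4 : conj (T.F d u) = T.F d u := by
    unfold Twists.F
    rw [← gf_conj, map_div₀, Complex.conj_ofReal, Complex.conj_ofReal]
  have e5 : conj ((u : ℂ) ^ (s - 1)) = (u : ℂ) ^ (conj s - 1) := by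
    have : conj s - 1 = conj (s - 1) := by
      rw [map_sub, map_one]
    rw [this, Complex.cpow_conj, Complex.conj_ofReal]
    rw [Complex.arg_ofReal_of_nonneg hu.le]
    exact hpi.ne
  rw [e4, e5]

theorem MM_fe (T : Twists Q lam) {d : ℤ} (hd : Squarefree d) (s : ℂ) :
    MM T d 0 (2 - s) = T.w d * MM T d 0 s := by
  rw [mm_zero, mm_zero]
  have h1 := mellin_comp_inv (fun u : ℝ => T.F d (u : ℂ)) (s - 2)
  have e1 : -(s - 2) = 2 - s := by ring
  rw [e1] at h1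
  rw [← h1]
  have h2 : mellin (fun t : ℝ => T.F d ((t⁻¹ : ℝ) : ℂ)) (s - 2) =
      mellin (fun t : ℝ => (T.w d : ℂ) • ((t : ℂ) ^ (2 : ℂ) • T.F d (t : ℂ))) (s - 2) := by
    unfold mellin
    refine setIntegral_congr_fun measurableSet_Ioi fun u (hu : 0 < u) => ?_
    have h3 := F_inv T hd (z := (u : ℂ)) (by simpa using hu)
    have e2 : ((u⁻¹ : ℝ) : ℂ) = 1 / (u : ℂ) := by
      rw [ofReal_inv, one_div]
    have e3 : (u : ℂ) ^ (2 : ℂ) = (u : ℂ) ^ 2 := by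
      rw [← Complex.cpow_natCast]
      norm_num
    simp only [smul_eq_mul]
    rw [e2, h3, e3]
    ring
  rw [h2, mellin_const_smul, mellin_cpow_smul, smul_eq_mul]
  congr 2
  ring

theorem exists_completed (a b : ℤ) (hab : 4 * a ^ 3 + 27 * b ^ 2 ≠ 0) (T : Twists Q lam)
    (hQ : ∀ p : ℕ, p.Prime → (p : ℤ) ∣ 2 * (4 * a ^ 3 + 27 * b ^ 2) → p ∣ Q)
    (hlam : ∀ p : ℕ, p.Prime → ¬ p ∣ Q → lam p = ap a b p / Real.sqrt p)
    (hL : ∀ d : ℤ, Squarefree d → ∃ F : ℂ → ℂ, IsLFun (a * d ^ 2) (b * d ^ 3) F) :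
    ∃ c : ℝ, ∀ d : ℤ, Squarefree d → ∃ M : ℂ → ℂ, IsCompleted a b d c M := by
  set k := Q.primeFactors.card with hk
  have hTc := T.one_le_c
  have hTc0 : 0 < T.c := by linarith
  have h64 : (1 : ℝ) ≤ 64 ^ k := one_le_pow₀ (by norm_num)
  have hcc : T.c ≤ T.c * 64 ^ k := le_mul_of_one_le_right hTc0.le h64
  refine ⟨T.c * 64 ^ k, fun d hd => ?_⟩
  obtain ⟨F, hF⟩ := hL d hd
  have hq := q_pos T hd
  have hpi := Real.pi_pos
  have h0 : |(0 : ℝ)| < Real.pi / 2 := by rw [abs_zero]; positivity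
  obtain ⟨S, hS, hS2, hfac⟩ := Lq_fac a b hab T hQ hlam d hd F hF
  refine ⟨MM T d 0, mm_diff T hd h0, MM_conj T d, ⟨T.w d, ?_, MM_fe T hd⟩, T.q d,
    fun s => Ee T d (s - 1 / 2) * ∏ p ∈ S, pf (a * d ^ 2) (b * d ^ 3) s p, F, hq, ?_, ?_, ?_, ?_,
    hF, ?_⟩
  · have h1 := T.w_sq d hd
    have h2 : (T.w d - 1) * (T.w d + 1) = 0 := by nlinarith
    rcases mul_eq_zero.1 h2 with h | h
    · left; linarith
    · right; linarith
  · exact (T.q_lower d hd).trans (by gcongr)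
  · exact (T.q_upper d hd).trans (by gcongr)
  · intro s hs
    have hs' : (3 : ℝ) / 4 < s.re := hs
    have hre : (s - 1 / 2).re = s.re - 1 / 2 := by simp
    have hopen : IsOpen {s : ℂ | (1 : ℝ) / 4 < s.re} := isOpen_lt continuous_const continuous_re
    have hmem : s - 1 / 2 ∈ {s : ℂ | (1 : ℝ) / 4 < s.re} := by
      show (1 : ℝ) / 4 < (s - 1 / 2).re
      rw [hre]; linarith
    have h1 : DifferentiableAt ℂ (Ee T d) (s - 1 / 2) :=
      (Ee_diff T hd (s - 1 / 2) hmem).differentiableAt (hopen.mem_nhds hmem)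
    have h2 : DifferentiableAt ℂ (fun s => Ee T d (s - 1 / 2)) s :=
      h1.comp s (differentiableAt_id.sub_const (1 / 2))
    have h3 : DifferentiableAt ℂ (fun s => ∏ p ∈ S, pf (a * d ^ 2) (b * d ^ 3) s p) s := by
      refine DifferentiableAt.fun_finsetProd fun p hp => ?_
      exact (pf_diff _ _ (Nat.prime_of_mem_primeFactors (hS hp))) s
    exact (h2.mul h3).differentiableWithinAt
  · intro s hs
    have hre : (s - 1 / 2).re = s.re - 1 / 2 := by simp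
    have h1 := Ee_bound T hd (s := s - 1 / 2) (by rw [hre]; linarith)
    have h2 := Ep_bound T hd (s := s - 1 / 2) (by rw [hre]; linarith)
    have h3 := Ee_mul T hd (s := s - 1 / 2) (by rw [hre]; linarith)
    have hp : ∀ p ∈ S, 1 / 64 ≤ ‖pf (a * d ^ 2) (b * d ^ 3) s p‖ ∧
        ‖pf (a * d ^ 2) (b * d ^ 3) s p‖ ≤ 4 := fun p hp =>
      pf_bds2 _ _ (Nat.prime_of_mem_primeFactors (hS hp)) (hS2 p hp) _ hs.le
    have h4 : (1 / 64 : ℝ) ^ k ≤ ‖∏ p ∈ S, pf (a * d ^ 2) (b * d ^ 3) s p‖ := by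
      rw [norm_prod]
      calc (1 / 64 : ℝ) ^ k ≤ (1 / 64 : ℝ) ^ S.card :=
            pow_le_pow_of_le_one (by norm_num) (by norm_num) (Finset.card_le_card hS)
        _ = ∏ _p ∈ S, (1 / 64 : ℝ) := by rw [Finset.prod_const]
        _ ≤ _ := Finset.prod_le_prod (fun _ _ => by norm_num) fun p h => (hp p h).1
    have h5 : ‖∏ p ∈ S, pf (a * d ^ 2) (b * d ^ 3) s p‖ ≤ 64 ^ k := by
      rw [norm_prod]
      calc ∏ p ∈ S, ‖pf (a * d ^ 2) (b * d ^ 3) s p‖ ≤ ∏ _p ∈ S, (4 : ℝ) :=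
            Finset.prod_le_prod (fun _ _ => norm_nonneg _) fun p h => (hp p h).2
        _ = 4 ^ S.card := by rw [Finset.prod_const]
        _ ≤ 4 ^ k := pow_le_pow_right₀ (by norm_num) (Finset.card_le_card hS)
        _ ≤ _ := by gcongr; norm_num
    have h6 : 1 ≤ T.c * ‖Ee T d (s - 1 / 2)‖ := by
      have h7 : ‖Ee T d (s - 1 / 2)‖ * ‖Ep T d (s - 1 / 2)‖ = 1 := by
        rw [← norm_mul, h3, norm_one]
      calc (1 : ℝ) = ‖Ee T d (s - 1 / 2)‖ * ‖Ep T d (s - 1 / 2)‖ := h7.symm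
        _ ≤ ‖Ee T d (s - 1 / 2)‖ * T.c := by gcongr
        _ = _ := mul_comm _ _
    rw [norm_mul]
    constructor
    · gcongr
    · have h7 : (1 : ℝ) = 64 ^ k * (1 / 64) ^ k := by
        rw [← mul_pow]
        norm_num
      calc (1 : ℝ) = 1 * (64 ^ k * (1 / 64) ^ k) := by rw [one_mul]; exact h7
        _ ≤ (T.c * ‖Ee T d (s - 1 / 2)‖) * (64 ^ k *
            ‖∏ p ∈ S, pf (a * d ^ 2) (b * d ^ 3) s p‖) := by gcongr
        _ = _ := by ring
  · intro s hs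
    have hre : (s - 1 / 2).re = s.re - 1 / 2 := by simp
    have e1 : s - 1 / 2 + 1 / 2 = s := by ring
    have h1 := ell_eq T d (s - 1 / 2)
    rw [e1] at h1
    have h2 := hfac (s - 1 / 2) (by rw [hre]; linarith)
    rw [e1] at h2
    have h3 := Ee_mul T hd (s := s - 1 / 2) (by rw [hre]; linarith)
    have h4 : T.Lq d (s - 1 / 2) = T.ell d (s - 1 / 2) * Ep T d (s - 1 / 2) := rfl
    have h5 : T.ell d (s - 1 / 2) = Ee T d (s - 1 / 2) *
        (F s * ∏ p ∈ S, pf (a * d ^ 2) (b * d ^ 3) s p) := by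
      rw [← h2, h4]
      linear_combination (-T.ell d (s - 1 / 2)) * h3
    have hG : Gamma s ≠ 0 := Gamma_ne_zero_of_re_pos (by linarith)
    have hqC : ((T.q d / (2 * Real.pi) : ℝ) : ℂ) ≠ 0 := by
      exact_mod_cast (by positivity : (T.q d / (2 * Real.pi) : ℝ) ≠ 0)
    have h6 : (2 * Real.pi / (T.q d : ℂ)) ^ s * ((T.q d / (2 * Real.pi) : ℝ) : ℂ) ^ s = 1 := by
      rw [q_cast]
      rw [← Complex.mul_cpow_ofReal_nonneg (by positivity) (by positivity), ← ofReal_mul]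
      have : 2 * Real.pi / T.q d * (T.q d / (2 * Real.pi)) = 1 := by field_simp
      rw [this, ofReal_one, Complex.one_cpow]
    have h7 : MM T d 0 s = ((T.q d / (2 * Real.pi) : ℝ) : ℂ) ^ s * Gamma s *
        T.ell d (s - 1 / 2) := by
      rw [h1]
      have h8 : Gamma s * (Gamma s)⁻¹ = 1 := mul_inv_cancel₀ hG
      calc MM T d 0 s = 1 * 1 * MM T d 0 s := by ring
        _ = ((2 * Real.pi / (T.q d : ℂ)) ^ s * ((T.q d / (2 * Real.pi) : ℝ) : ℂ) ^ s) *
            (Gamma s * (Gamma s)⁻¹) * MM T d 0 s := by rw [h6, h8]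
        _ = _ := by ring
    rw [h7, h5]
    ring

end Pool.Agent.Hp428.TD
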