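import Pool.Agent.Hp428.TD.Mol
import Pool.Agent.Y141.QT12c2

set_option autoImplicit false

/-!
# The size of the mollifier for almost all twists
-/

namespace Pool.Agent.Hp428.TD

open Complex MeasureTheory Finset
open Pool.Agent.Y19.QT (Twists sqf mem_sqf Mol)
open Pool.Agent.Y474.QTZ6 (Box mem_Box YY one_le_log ff ff_diff)

variable {Q : ℕ} {lam : ℕ → ℝ}

/-- P2: the mollifier is small for almost all twists -/
theorem P2 (T : Twists Q lam) (Kx : ℕ) : ∃ (C : ℝ) (K' : ℕ), 0 ≤ C ∧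
    ∀ (X : ℕ) (S : Finset ℤ), 3 ≤ X → 5 ≤ Real.log X → S ⊆ sqf X →
      (∀ d ∈ S, ∃ s0 : ℂ, 1 / 2 + 1 / Real.log X ≤ s0.re ∧ s0.re ≤ 1 + 1 / Real.log X ∧
        Real.exp (K' * el (Real.log X) s0.im) ≤ ‖Mol Q lam (YY X) d s0‖) →
      (S.card : ℝ) ≤ C * X / Real.log X ^ Kx := by
  classical
  obtain ⟨C0, A, hC0, hmean⟩ := Pool.Agent.Y141.QT12c2.T12c2 Q lam T.hecke
  refine ⟨2 * (9 * C0), A + Kx + 4, by positivity, ?_⟩
  intro X S hX hL2 hSX hS
  have hl := one_le_log hX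
  have hX0 : (0 : ℝ) < X := by exact_mod_cast (by omega : 0 < X)
  set L := Real.log X with hL
  have hL0 : 0 < L := by linarith
  choose! s0 hs0 using hS
  set u : ℤ → ℕ := fun d => ⌈|(s0 d).im|⌉₊ with hu
  have hM : 0 ≤ 9 * C0 * X / L ^ Kx := by positivity
  have key := sum_heights S u hM (fun U => ?_)
  · refine key.trans (le_of_eq ?_)
    ring
  set SU := S.filter (fun d => u d = U) with hSU
  have hU0 : (0 : ℝ) ≤ U := Nat.cast_nonneg _
  set V : ℝ := (L * (1 + U)) ^ (2 * (A + Kx + 4)) with hV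
  have hV0 : 0 < V := by positivity
  have h := count_mean (sqf X) (fun d s => Mol Q lam (YY X) d s ^ 2) (a := 1 / 2)
    (b := 1 + 2 / L) (U := U) (r := 1 / L) (V := V) (M := C0 * X * L ^ A) (by positivity) hU0
    (by positivity) ?_ ?_ (fun d hd => ?_) ?_ SU ((Finset.filter_subset _ _).trans hSX) ?_
  · have hLU : 1 ≤ L * (1 + U) := by nlinarith
    have h3 : (SU.card : ℝ) * (V * (1 / L) ^ 2) ≤ C0 * X * L ^ A * (9 * (1 + U) ^ 2) := by
      refine h.trans ?_
      have h5 : (U + 3 : ℝ) ^ 2 ≤ 9 * (1 + U) ^ 2 := by nlinarith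
      gcongr
    have h4 : (SU.card : ℝ) ≤ L ^ 2 * (C0 * X * L ^ A * (9 * (1 + U) ^ 2)) / V := by
      rw [le_div_iff₀ hV0]
      have e3 : (SU.card : ℝ) * V = L ^ 2 * ((SU.card : ℝ) * (V * (1 / L) ^ 2)) := by
        field_simp
      rw [e3]
      gcongr
    refine h4.trans ?_
    rw [div_div, div_le_div_iff₀ hV0 (by positivity)]
    have h1U : (1 : ℝ) ≤ 1 + U := by linarith
    have e6 : L ^ (A + 2 + Kx) * (1 + (U : ℝ)) ^ 4 ≤ V := by
      rw [hV, mul_pow]
      exact mul_le_mul (pow_le_pow_right₀ hl (by omega)) (pow_le_pow_right₀ h1U (by omega))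
        (by positivity) (by positivity)
    calc L ^ 2 * (C0 * X * L ^ A * (9 * (1 + (U : ℝ)) ^ 2)) * (L ^ Kx * ((U : ℝ) + 1) ^ 2)
        = 9 * C0 * X * (L ^ (A + 2 + Kx) * (1 + (U : ℝ)) ^ 4) := by ring
      _ ≤ 9 * C0 * X * V := by gcongr
  · have : 1 / L ≤ 1 / 5 := by
      rw [div_le_div_iff₀ hL0 (by norm_num)]
      linarith
    linarith
  · have : 2 / L ≤ 1 := by
      rw [div_le_one hL0]
      linarith
    linarith
  · exact ((Pool.Agent.Y180.QT12b2.Mol_diff Q lam (YY X) d).pow 2).differentiableOn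
  · intro s hs
    rw [mem_Box] at hs
    have h1 := hmean X (YY X) s hX (YY_one hX) YY_four (by linarith [hs.1.1])
    have h2 : max 0 (1 / 2 - s.re) = 0 := max_eq_left (by linarith [hs.1.1])
    rw [h2, mul_zero, Real.rpow_zero, mul_one] at h1
    refine le_trans (le_of_eq ?_) h1
    refine Finset.sum_congr rfl fun d _ => ?_
    rw [norm_pow]
  · intro d hd
    obtain ⟨hdS, hdu⟩ := Finset.mem_filter.1 hd
    obtain ⟨g1, g2, g3⟩ := hs0 d hdS
    refine ⟨s0 d, g1, ?_, ?_, ?_⟩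
    · have e : (2 : ℝ) / L = 1 / L + 1 / L := by ring
      rw [e]
      linarith
    · have h1 := (ceil_facts (s0 d).im).1
      rw [show ⌈|(s0 d).im|⌉₊ = U from hdu] at h1
      exact h1
    · rw [norm_pow]
      have h2 := (ceil_facts (s0 d).im).2
      rw [show ⌈|(s0 d).im|⌉₊ = U from hdu] at h2
      have h3 : (L * (1 + U)) ^ (A + Kx + 4) ≤ ‖Mol Q lam (YY X) d (s0 d)‖ := by
        refine le_trans ?_ g3
        have e1 : Real.exp (((A + Kx + 4 : ℕ) : ℝ) * el L (s0 d).im) =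
            (L * (2 + |(s0 d).im|)) ^ (A + Kx + 4) := by
          unfold el
          rw [Real.exp_nat_mul, Real.exp_add, Real.exp_log hL0, Real.exp_log (by positivity)]
        rw [e1]
        gcongr
      rw [hV, mul_comm 2, pow_mul]
      gcongr

end Pool.Agent.Hp428.TD
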