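import Pool.Agent.Hp428.TD.Rnof
import Pool.Agent.Hp428.TD.Mol2
import Pool.Agent.Y19.QT.Lin2

set_option autoImplicit false

/-!
# Almost all twists are good
-/

namespace Pool.Agent.Hp428.TD

open Complex Finset
open Pool.Agent.Y19.QT (ap Twists IsLFun Mol sqf mem_sqf LindelofLaw isLFun_uniq)
open Pool.Agent.Y474.QTZ6 (YY one_le_log card_sqf')

variable {Q : ℕ} {lam : ℕ → ℝ}

theorem union4 {S : Finset ℤ} {B1 B2 B3 B4 : ℤ → Prop} {M1 M2 M3 M4 : ℝ}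
    (h : ∀ d ∈ S, B1 d ∨ B2 d ∨ B3 d ∨ B4 d)
    (h1 : ∀ S' : Finset ℤ, S' ⊆ S → (∀ d ∈ S', B1 d) → (S'.card : ℝ) ≤ M1)
    (h2 : ∀ S' : Finset ℤ, S' ⊆ S → (∀ d ∈ S', B2 d) → (S'.card : ℝ) ≤ M2)
    (h3 : ∀ S' : Finset ℤ, S' ⊆ S → (∀ d ∈ S', B3 d) → (S'.card : ℝ) ≤ M3)
    (h4 : ∀ S' : Finset ℤ, S' ⊆ S → (∀ d ∈ S', B4 d) → (S'.card : ℝ) ≤ M4) :
    (S.card : ℝ) ≤ M1 + M2 + M3 + M4 := by
  classical
  have g1 := h1 (S.filter B1) (filter_subset _ _) fun d hd => (mem_filter.1 hd).2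
  have g2 := h2 (S.filter B2) (filter_subset _ _) fun d hd => (mem_filter.1 hd).2
  have g3 := h3 (S.filter B3) (filter_subset _ _) fun d hd => (mem_filter.1 hd).2
  have g4 := h4 (S.filter B4) (filter_subset _ _) fun d hd => (mem_filter.1 hd).2
  have hsub : S ⊆ S.filter B1 ∪ (S.filter B2 ∪ (S.filter B3 ∪ S.filter B4)) := by
    intro d hd
    simp only [mem_union, mem_filter]
    rcases h d hd with h | h | h | h
    · exact Or.inl ⟨hd, h⟩
    · exact Or.inr (Or.inl ⟨hd, h⟩)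
    · exact Or.inr (Or.inr (Or.inl ⟨hd, h⟩))
    · exact Or.inr (Or.inr (Or.inr ⟨hd, h⟩))
  have c1 : S.card ≤ (S.filter B1).card + ((S.filter B2).card + ((S.filter B3).card +
      (S.filter B4).card)) := by
    refine (card_le_card hsub).trans ((card_union_le _ _).trans ?_)
    gcongr
    refine (card_union_le _ _).trans ?_
    gcongr
    exact card_union_le _ _
  have c2 : (S.card : ℝ) ≤ (S.filter B1).card + ((S.filter B2).card + ((S.filter B3).card +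
      (S.filter B4).card)) := by exact_mod_cast c1
  linarith

theorem small_d {X Kx : ℕ} (hX : 3 ≤ X) {S : Finset ℤ} (hS : S ⊆ sqf X)
    (h : ∀ d ∈ S, |(d : ℝ)| < X / Real.log X ^ Kx) :
    (S.card : ℝ) ≤ 3 * (X / Real.log X ^ Kx) := by
  have hl := one_le_log hX
  have h0 : (0 : ℝ) ≤ X / Real.log X ^ Kx := by positivity
  rcases S.eq_empty_or_nonempty with he | ⟨d0, hd0⟩
  · rw [he]
    simp only [card_empty, Nat.cast_zero]
    positivity
  set m := ⌊(X : ℝ) / Real.log X ^ Kx⌋₊ with hm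
  have hsub : S ⊆ sqf m := by
    intro d hd
    have h1 := h d hd
    have h2 := (mem_sqf.1 (hS hd)).2
    rw [mem_sqf]
    refine ⟨?_, h2⟩
    have h3 : d.natAbs ≤ m := by
      rw [hm]
      apply Nat.le_floor
      have : ((d.natAbs : ℕ) : ℝ) = |(d : ℝ)| := by
        rw [Nat.cast_natAbs]
        push_cast
        rfl
      rw [this]
      exact h1.le
    have h4 : |d| = (d.natAbs : ℤ) := Int.abs_eq_natAbs d
    rw [h4]
    exact_mod_cast h3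
  have hm1 : 1 ≤ m := by
    have h1 := mem_sqf.1 (hsub hd0)
    have h2 : d0 ≠ 0 := h1.2.ne_zero
    have h3 : 1 ≤ |d0| := Int.one_le_abs h2
    have h4 : (1 : ℤ) ≤ m := h3.trans h1.1
    exact_mod_cast h4
  calc (S.card : ℝ) ≤ (sqf m).card := by exact_mod_cast card_le_card hsub
    _ ≤ 3 * m := card_sqf' hm1
    _ ≤ _ := by
        gcongr
        exact Nat.floor_le h0

/-- almost all twists are good -/
theorem good_twists (a b : ℤ) (hab : 4 * a ^ 3 + 27 * b ^ 2 ≠ 0) (T : Twists Q lam)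
    (hQ : ∀ p : ℕ, p.Prime → (p : ℤ) ∣ 2 * (4 * a ^ 3 + 27 * b ^ 2) → p ∣ Q)
    (hlam : ∀ p : ℕ, p.Prime → ¬ p ∣ Q → lam p = ap a b p / Real.sqrt p)
    (hlin : LindelofLaw a b) (Kx : ℕ) : ∃ C K : ℝ, 0 ≤ C ∧ 1 ≤ K ∧
      ∀ F : ℤ → ℂ → ℂ, (∀ d : ℤ, Squarefree d → IsLFun (a * d ^ 2) (b * d ^ 3) (F d)) →
      ∀ (X : ℕ) (S : Finset ℤ), 3 ≤ X → 5 ≤ Real.log X → S ⊆ sqf X →
        (∀ d ∈ S, ¬ (RN (Real.log X) K (fun z => F d (1 + z)) ∧
          Real.log X - Kx * Real.log (Real.log X) ≤ Real.log |(d : ℝ)|)) →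
        (S.card : ℝ) ≤ C * X / Real.log X ^ Kx := by
  classical
  have hex : ∀ d : ℤ, ∃ F : ℂ → ℂ, Squarefree d → IsLFun (a * d ^ 2) (b * d ^ 3) F := by
    intro d
    by_cases hd : Squarefree d
    · obtain ⟨F, hF, -⟩ := hlin.1 d hd
      exact ⟨F, fun _ => hF⟩
    · exact ⟨0, fun h => absurd h hd⟩
  choose F0 hF0 using hex
  obtain ⟨-, hlin2⟩ := hlin.2 F0 hF0
  obtain ⟨C1, K', hC1⟩ := hlin2 Kx
  obtain ⟨C2, K0, hC20, hK0, hC2⟩ := P1 T Kx
  obtain ⟨C3, K'', hC30, hC3⟩ := P2 T Kx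
  obtain ⟨K, hK, hrn⟩ := rn_of a b hab T hQ hlam K' K'' (K1 := K0) (by linarith)
  refine ⟨|C1| + C2 + C3 + 3, K, by positivity, hK, fun F hF X S hX hX5 hS hbad => ?_⟩
  have hX0 : (0 : ℝ) < X := by exact_mod_cast (by omega : 0 < X)
  have hL0 : 0 < Real.log X := by linarith
  have hLL : 1 ≤ Real.log (Real.log X) := by
    rw [Real.le_log_iff_exp_le hL0]
    have := Real.exp_one_lt_d9
    linarith
  have hFF : ∀ d ∈ S, F d = F0 d := fun d hd =>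
    isLFun_uniq (hF d (mem_sqf.1 (hS hd)).2) (hF0 d (mem_sqf.1 (hS hd)).2)
  have key := union4 (S := S)
    (B1 := fun d => ∃ t : ℝ, (Real.log X * (2 + |t|)) ^ K' < ‖F0 d (1 + t * I)‖)
    (B2 := fun d => ∃ s0 : ℂ, K0 * el (Real.log X) s0.im ≤ 2 * Real.log X ∧
        1 / 2 + K0 * el (Real.log X) s0.im / Real.log X ≤ s0.re ∧ s0.re ≤ 1 + 1 / Real.log X ∧
        1 / 2 ≤ ‖T.Lq d s0 * Mol Q lam (YY X) d s0 - 1‖)
    (B3 := fun d => ∃ s0 : ℂ, 1 / 2 + 1 / Real.log X ≤ s0.re ∧ s0.re ≤ 1 + 1 / Real.log X ∧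
        Real.exp (K'' * el (Real.log X) s0.im) ≤ ‖Mol Q lam (YY X) d s0‖)
    (B4 := fun d => |(d : ℝ)| < X / Real.log X ^ Kx)
    (M1 := |C1| * X / Real.log X ^ Kx) (M2 := C2 * X / Real.log X ^ Kx)
    (M3 := C3 * X / Real.log X ^ Kx) (M4 := 3 * (X / Real.log X ^ Kx)) ?_ ?_ ?_ ?_ ?_
  · refine key.trans (le_of_eq ?_)
    ring
  · intro d hd
    by_contra hno
    push Not at hno
    obtain ⟨h1, h2, h3, h4⟩ := hno
    refine hbad d hd ⟨?_, ?_⟩
    · rw [hFF d hd]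
      refine hrn d (F0 d) (Real.log X) (YY X) (mem_sqf.1 (hS hd)).2 (hF0 d (mem_sqf.1 (hS hd)).2)
        hX5 h1 (fun s0 g1 g2 g3 => (h2 s0 g1 g2 g3).le) (fun s0 g1 g2 => (h3 s0 g1 g2).le)
    · have h5 : Real.log (X / Real.log X ^ Kx) ≤ Real.log |(d : ℝ)| :=
        Real.log_le_log (by positivity) h4
      rw [Real.log_div hX0.ne' (by positivity), Real.log_pow] at h5
      exact h5
  · intro S' hS' h
    refine (hC1 X S' hX (hS'.trans hS) h).trans ?_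
    gcongr
    exact le_abs_self C1
  · intro S' hS' h
    exact hC2 K0 le_rfl X S' hX hLL (hS'.trans hS) h
  · intro S' hS' h
    exact hC3 X S' hX hX5 (hS'.trans hS) h
  · intro S' hS' h
    exact small_d hX (hS'.trans hS) h

end Pool.Agent.Hp428.TD
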