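import Pool.Agent.Hp428.TD.NNs
import Pool.Agent.H353R6.E15
import Pool.Agent.Y671.LD.Pt
import Pool.Agent.W347.SD.SB2
import Pool.Agent.W368.SD.SB3
import Pool.Agent.W571.SD.SB1
import Pool.Agent.W688.SD.SHar

set_option autoImplicit false

/-!
# Zeros of the derivatives: abstract form
-/

namespace Pool.Agent.Hp428.TD

open Complex Filter Topology Set
open Pool.Agent.H24R2.DZ (NN SHar SB3 SB1a SB1b)
open Pool.Agent.Y671.LD (bad iter_comp NN_mono)
open H353.E (GLc tend_E)
open scoped ComplexConjugate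

theorem t_sb3 : SB3 := Pool.Agent.W368.SD.sb3 Pool.Agent.W347.SD.sb2

/-- the standing assumptions hold for all scales -/
theorem st_all {K : ℝ} (hK : 1 ≤ K) {η : ℝ} (hη : 0 < η) (n0 : ℕ) : ∃ K2 L0 : ℝ, 1 ≤ K2 ∧ 100 ≤ L0 ∧
    ∀ (L Q : ℝ) (R G : ℂ → ℂ), L0 ≤ L → GQ L K Q R G → ∀ (n : ℕ) (y : ℝ), K2 * el L y ≤ n →
      n0 ≤ n ∧ 0 < (n : ℝ) ∧ L ≤ Oq L y n ∧ ∀ r : ℝ, n ≤ r * Oq L y n → r ≤ n + 1 →
        NN (r * Oq L y n) η (fun z => G (I * y + r * z)) := by
  obtain ⟨CH0, hCH0, hH0⟩ := Pool.Agent.W688.SD.shar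
  set CH := max CH0 1 with hCH
  have hCH1 : 1 ≤ CH := le_max_right _ _
  have hH : ∀ (B : ℝ) (K : ℂ → ℂ), 0 ≤ B →
      (∀ z : ℂ, 1 / 2000 ≤ z.re → z.re ≤ 25 → |z.im| ≤ 25 →
        DifferentiableAt ℂ K z ∧ K z ≠ 0 ∧ ‖K z‖ ≤ Real.exp B * ‖K 1‖) →
      ∀ z : ℂ, 1 / 1000 ≤ z.re → z.re ≤ 21 → |z.im| ≤ 21 → ‖logDeriv K z‖ ≤ CH * B := by
    intro B Kf hB h z h1 h2 h3
    exact (hH0 B Kf hB h z h1 h2 h3).trans (by gcongr; exact le_max_left _ _)
  set ε := min (η / 10) (1 / 10000) with hε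
  have hε0 : 0 < ε := lt_min (by positivity) (by norm_num)
  have hε1 : ε ≤ 1 / 10000 := min_le_right _ _
  have hε2 : 10 * ε ≤ η := by
    have := min_le_left (η / 10) (1 / 10000)
    linarith
  obtain ⟨L0, a1, a2, a3, a4⟩ := consts hK (by linarith : 0 < CH) hε0
  refine ⟨16000 * K + 4 * K * CH / ε + 2 * n0, L0, ?_, a1, ?_⟩
  · have : 0 ≤ 4 * K * CH / ε := by positivity
    have : (0 : ℝ) ≤ 2 * n0 := by positivity
    linarith
  intro L Q R G hL H n y hn
  have hL1 : 1 ≤ L := by linarith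
  have hel := el_pos hL1 y
  have hel2 : 1 / 2 ≤ el L y := by
    unfold el
    have h1 := Real.log_nonneg hL1
    have h2 : Real.log 2 ≤ Real.log (2 + |y|) := Real.log_le_log (by norm_num) (by
      have := abs_nonneg y
      linarith)
    have := Real.log_two_gt_d9
    linarith
  have hn' : (16000 * K + 4 * K * CH / ε) * el L y ≤ n := by
    have : 0 ≤ 2 * (n0 : ℝ) * el L y := by positivity
    linarith
  have hnn0 : n0 ≤ n := by
    have h1 : 0 ≤ (16000 * K + 4 * K * CH / ε) * el L y := by positivity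
    have h2 : (n0 : ℝ) ≤ 2 * n0 * el L y := by
      have : (0 : ℝ) ≤ n0 := Nat.cast_nonneg _
      nlinarith
    have h3 : (n0 : ℝ) ≤ n := by linarith
    exact_mod_cast h3
  have hnpos : 0 < (n : ℝ) := by
    have h1 : 0 < (16000 * K + 4 * K * CH / ε) * el L y := by positivity
    linarith
  have hOL : L ≤ Oq L y n := by
    unfold Oq
    have h : 0 ≤ Real.log (2 + |y| + n) := Real.log_nonneg (by
      have := abs_nonneg y
      linarith)
    linarith
  refine ⟨hnn0, hnpos, hOL, fun r h1 h2 => ?_⟩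
  have hr0 : 0 ≤ r := by
    by_contra hcon
    push Not at hcon
    have : 0 < Oq L y n := by linarith
    nlinarith
  have hx := a4 (Oq L y n) (hL.trans hOL)
  have S : St ε K CH L y y r n :=
    { hε := hε0
      hε1 := hε1
      hK := hK
      hCH := hCH1
      hL := a1.trans hL
      l1 := (a4 L hL).1
      l2 := hx.2.1
      l3 := hx.2.2
      l4 := a2.trans hL
      l5 := a3.trans hL
      hn := hn'
      hy := by simpa using hr0
      hr := h1
      hr2 := h2 }
  refine NN_mono (nn_of hH S H) hε2 ?_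
  have : 0 < Oq L y n := by linarith
  positivity

/-- the growth of the completed L-function -/
theorem glc {L K Q : ℝ} {R G : ℂ → ℂ} (hK : 1 ≤ K) (hL : 1 ≤ L) (H : GQ L K Q R G) :
    GLc (1 / 2) (fun s => G (s - 1 / 2)) := by
  obtain ⟨c, hc, hf⟩ := H.fac
  have hQ := H.hQ
  have hc0 : 0 < ‖c‖ := norm_pos_iff.2 hc
  have hlogL := Real.log_nonneg hL
  have hright : ∀ z : ℂ, 0 ≤ z.re → ‖G z‖ ≤ Real.exp (Real.log ‖c‖ + K * Real.log L +
      ((|Real.log Q| + 5) + (1 + K) * Real.log (‖z‖ + 13)) * (‖z‖ + 1)) := by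
    intro z hz
    rw [hf z hz]
    simp only [norm_mul]
    rw [Complex.norm_cpow_eq_rpow_re_of_pos hQ, Real.rpow_def_of_pos hQ]
    have h1 := gam_growth hz
    have h2 := H.rn.up z hz
    have hn := norm_nonneg z
    have h3 : Real.log Q * z.re ≤ |Real.log Q| * ‖z‖ := by
      calc Real.log Q * z.re ≤ |Real.log Q| * z.re := by gcongr; exact le_abs_self _
        _ ≤ _ := by gcongr; exact re_le_norm z
    have h4 : el L z.im ≤ Real.log L + Real.log (‖z‖ + 13) := by
      unfold el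
      have := abs_im_le_norm z
      have h5 : Real.log (2 + |z.im|) ≤ Real.log (‖z‖ + 13) :=
        Real.log_le_log (by positivity) (by linarith)
      linarith
    have h5 : Real.log (‖z‖ + 3) ≤ Real.log (‖z‖ + 13) :=
      Real.log_le_log (by positivity) (by linarith)
    have h6 : 0 ≤ Real.log (‖z‖ + 13) := Real.log_nonneg (by linarith)
    calc ‖c‖ * Real.exp (Real.log Q * z.re) * ‖Gamma (1 + z)‖ * ‖R z‖
        ≤ Real.exp (Real.log ‖c‖) * Real.exp (|Real.log Q| * ‖z‖) *
          Real.exp (‖z‖ * (5 + Real.log (‖z‖ + 3))) *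
          Real.exp (K * (Real.log L + Real.log (‖z‖ + 13))) := by
          rw [Real.exp_log hc0]
          gcongr
          refine h2.trans (Real.exp_le_exp.2 ?_)
          gcongr
      _ = Real.exp (Real.log ‖c‖ + |Real.log Q| * ‖z‖ + ‖z‖ * (5 + Real.log (‖z‖ + 3)) +
          K * (Real.log L + Real.log (‖z‖ + 13))) := by
          rw [Real.exp_add, Real.exp_add, Real.exp_add]
      _ ≤ _ := by
          apply Real.exp_le_exp.2
          have t1 : ‖z‖ * (5 + Real.log (‖z‖ + 3)) ≤ ‖z‖ * (5 + Real.log (‖z‖ + 13)) := by gcongr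
          have t2 : 0 ≤ |Real.log Q| := abs_nonneg _
          have t3 : 0 ≤ K * Real.log (‖z‖ + 13) * ‖z‖ := by positivity
          nlinarith
  have hall : ∀ z : ℂ, ‖G z‖ ≤ Real.exp (Real.log ‖c‖ + K * Real.log L +
      ((|Real.log Q| + 5) + (1 + K) * Real.log (‖z‖ + 13)) * (‖z‖ + 1)) := by
    intro z
    rcases le_total 0 z.re with h | h
    · exact hright z h
    · have h1 := hright (-(conj z)) (by simpa using h)
      rw [H.symm, Complex.norm_conj, norm_neg, Complex.norm_conj] at h1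
      exact h1
  refine ⟨H.diff.comp (by fun_prop), ⟨1, fun s => ?_⟩, ?_, fun s hs => ?_⟩
  · show G (s - 1 / 2) = 1 * conj (G (1 - conj s - 1 / 2))
    rw [one_mul, ← H.symm]
    congr 1
    simp only [map_sub, map_one, Complex.conj_conj, map_div₀, Complex.conj_ofNat]
    ring
  · refine ⟨fun ρ => (Real.log ‖c‖ + K * Real.log L) +
      ((|Real.log Q| + 5) + (1 + K) * Real.log (max ρ 0 + 14)) * (max ρ 0 + 2), ?_, tend_E _ _ _,
      fun s => ?_⟩
    · intro a b hab
      have h1 : max a 0 ≤ max b 0 := max_le_max_right 0 hab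
      have h2 : 0 ≤ max a 0 := le_max_right _ _
      have h3 : Real.log (max a 0 + 14) ≤ Real.log (max b 0 + 14) :=
        Real.log_le_log (by linarith) (by linarith)
      have h4 : 0 ≤ Real.log (max a 0 + 14) := Real.log_nonneg (by linarith)
      have h4b : 0 ≤ Real.log (max b 0 + 14) := h4.trans h3
      have h5 : 0 ≤ (|Real.log Q| + 5) + (1 + K) * Real.log (max b 0 + 14) := by positivity
      show (Real.log ‖c‖ + K * Real.log L) + _ ≤ (Real.log ‖c‖ + K * Real.log L) + _
      gcongr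
    · show ‖G (s - 1 / 2)‖ ≤ _
      refine (hall _).trans (Real.exp_le_exp.2 ?_)
      have h1 : ‖s - 1 / 2‖ ≤ ‖s‖ + 1 := by
        refine (norm_sub_le _ _).trans ?_
        have : ‖(1 / 2 : ℂ)‖ = 1 / 2 := by simp
        linarith
      have h0 : max ‖s‖ 0 = ‖s‖ := max_eq_left (norm_nonneg _)
      beta_reduce
      rw [h0]
      have h2 := norm_nonneg (s - 1 / 2)
      have h3 : Real.log (‖s - 1 / 2‖ + 13) ≤ Real.log (‖s‖ + 14) :=
        Real.log_le_log (by linarith) (by linarith)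
      have h4 : 0 ≤ Real.log (‖s - 1 / 2‖ + 13) := Real.log_nonneg (by linarith)
      have h4b : 0 ≤ Real.log (‖s‖ + 14) := h4.trans h3
      have h5 : 0 ≤ (|Real.log Q| + 5) + (1 + K) * Real.log (‖s‖ + 14) := by positivity
      have h6 : ‖s - 1 / 2‖ + 1 ≤ ‖s‖ + 2 := by linarith
      gcongr
  · by_contra hcon
    push Not at hcon
    have hz : 1 / 2 < (s - 1 / 2).re := by
      have : (s - 1 / 2).re = s.re - 1 / 2 := by simp
      rw [this]; linarith
    have h1 := H.rn.nz _ hz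
    have h2 : G (s - 1 / 2) = 0 := hs
    rw [hf _ (by linarith)] at h2
    have hQc : (Q : ℂ) ≠ 0 := by exact_mod_cast hQ.ne'
    refine absurd h2 (mul_ne_zero (mul_ne_zero (mul_ne_zero hc ?_) (Gamma_ne (by linarith))) h1)
    rw [Complex.cpow_ne_zero_iff]; exact Or.inl hQc

/-- **Abstract theorem**: all zeros of `G^(n)` at height `y` are simple and on the line `Re = 0`
if `n ≥ K2 (log L + log (2 + |y|))`. -/
theorem main_abs {K : ℝ} (hK : 1 ≤ K) : ∃ K2 L0 : ℝ, 1 ≤ K2 ∧ 100 ≤ L0 ∧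
    ∀ (L Q : ℝ) (R G : ℂ → ℂ), L0 ≤ L → GQ L K Q R G → ∀ (n : ℕ) (s : ℂ), K2 * el L s.im ≤ n →
      ¬ bad G n s := by
  obtain ⟨η3, hη3, h3⟩ := t_sb3
  obtain ⟨ηa, na, hηa, ha⟩ := Pool.Agent.W571.SD.sb1a
  obtain ⟨ηb, nb, hηb, hb⟩ := Pool.Agent.W571.SD.sb1b
  set η := min η3 (min ηa ηb) with hη
  have hη0 : 0 < η := lt_min hη3 (lt_min hηa hηb)
  have e3 : η ≤ η3 := min_le_left _ _
  have ea : η ≤ ηa := (min_le_right _ _).trans (min_le_left _ _)
  have eb : η ≤ ηb := (min_le_right _ _).trans (min_le_right _ _)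
  obtain ⟨K2, L0, hK2, hL0, hNN⟩ := st_all hK hη0 (max 1 (max na nb))
  refine ⟨K2, L0, hK2, hL0, fun L Q R G hL H n s hn hbad => ?_⟩
  have hL1 : 1 ≤ L := by linarith
  obtain ⟨hn0, hnpos, hOL, hN⟩ := hNN L Q R G hL H n s.im hn
  have hn1 : 1 ≤ n := (le_max_left _ _).trans hn0
  have hna : na ≤ n := ((le_max_left _ _).trans (le_max_right _ _)).trans hn0
  have hnb : nb ≤ n := ((le_max_right _ _).trans (le_max_right _ _)).trans hn0
  -- the derivatives do not vanish identically
  have hne : ∀ m : ℕ, ∃ z, iteratedDeriv m G z ≠ 0 := by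
    intro m
    obtain ⟨M, hM⟩ := exists_nat_ge (K2 * el L 0)
    set N := m + M with hN'
    have hNM : K2 * el L 0 ≤ (N : ℝ) := hM.trans (by rw [hN']; push_cast; linarith [Nat.cast_nonneg (α := ℝ) m])
    obtain ⟨b1, b2, b3, b4⟩ := hNN L Q R G hL H N 0 hNM
    have hN1 : 1 ≤ N := (le_max_left _ _).trans b1
    have hOp : 0 < Oq L 0 N := by linarith
    have b5 := b4 (N / Oq L 0 N) (le_of_eq (by field_simp)) (by
      have : (N : ℝ) / Oq L 0 N ≤ N := div_le_self b2.le (by linarith)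
      linarith)
    have e : (N : ℝ) / Oq L 0 N * Oq L 0 N = N := by field_simp
    rw [e] at b5
    have b6 := h3 N N _ hN1 le_rfl (NN_mono b5 e3 b2.le) 3 (by norm_num) (by norm_num) (by norm_num)
    rw [iter_comp H.diff] at b6
    have b7 := right_ne_zero_of_mul b6
    by_contra hcon
    push Not at hcon
    apply b7
    have hall : ∀ j : ℕ, iteratedDeriv (m + j) G = fun _ => 0 := by
      intro j
      induction j with
      | zero => exact funext hcon
      | succ j ih =>
        rw [← add_assoc, iteratedDeriv_succ, ih]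
        simp
    rw [hN', hall M]
  -- the strip
  have hstrip : |s.re| ≤ 1 / 2 := by
    have hG := glc hK hL1 H
    have hne' : ∀ m : ℕ, ∃ z, iteratedDeriv m (fun s => G (s - 1 / 2)) z ≠ 0 := by
      intro m
      obtain ⟨z, hz⟩ := hne m
      refine ⟨z + 1 / 2, ?_⟩
      rw [iteratedDeriv_comp_sub_const]
      simpa using hz
    have h1 := hG.iter hne' n
    have hz : iteratedDeriv n (fun s => G (s - 1 / 2)) (s + 1 / 2) = 0 := by
      rw [iteratedDeriv_comp_sub_const]
      simpa using hbad.1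
    have h2 := h1.zer _ hz
    have h4 := h1.lower (hne' n) hz
    have e : (s + 1 / 2).re = s.re + 1 / 2 := by simp
    rw [e] at h2 h4
    rw [abs_le]
    constructor <;> linarith
  have hOp : 0 < Oq L s.im n := by linarith
  set Om := Oq L s.im n with hOm
  set r0 : ℝ := n / Om with hr0
  have hr0pos : 0 < r0 := by positivity
  have hcoord : ∀ r : ℝ, 0 < r → I * (s.im : ℂ) + r * ((s.re / r : ℝ) : ℂ) = s := by
    intro r hr
    have : ((s.re / r : ℝ) : ℂ) = (s.re : ℂ) / r := by push_cast; ring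
    rw [this, mul_div_cancel₀ _ (by exact_mod_cast hr.ne'), mul_comm I, add_comm, Complex.re_add_im]
  rcases le_or_gt |s.re| (5 * r0) with h5 | h5
  · -- the scale n
    have hNN0 := hN r0 (le_of_eq (by rw [hr0]; field_simp)) (by
      have : r0 ≤ n := div_le_self hnpos.le (by linarith)
      linarith)
    have e : r0 * Om = n := by rw [hr0]; field_simp
    rw [e] at hNN0
    have hz0 : iteratedDeriv n (fun z => G (I * (s.im : ℂ) + r0 * z)) ((s.re / r0 : ℝ) : ℂ) = 0 := by
      rw [iter_comp H.diff, hcoord r0 hr0pos, hbad.1, mul_zero]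
    have hre : |(((s.re / r0 : ℝ) : ℂ)).re| = |s.re| / r0 := by
      rw [ofReal_re, abs_div, abs_of_pos hr0pos]
    rcases le_or_gt (1 / 100) (|s.re| / r0) with h6 | h6
    · refine ha n _ hna (NN_mono hNN0 ea hnpos.le) _ (by rw [hre]; exact h6) ?_ (by simp) hz0
      rw [hre, div_le_iff₀ hr0pos]
      exact h5
    · obtain ⟨h7, h8⟩ := hb n _ hnb (NN_mono hNN0 eb hnpos.le) _ (by rw [hre]; exact h6.le) (by simp) hz0
      rw [ofReal_re, div_eq_zero_iff] at h7
      have h9 : s.re = 0 := h7.resolve_right hr0pos.ne'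
      rw [iter_comp H.diff, hcoord r0 hr0pos] at h8
      rcases hbad.2 with h10 | h10
      · exact h10 h9
      · exact h8 (by rw [h10, mul_zero])
  · -- larger scales
    set r : ℝ := |s.re| / 3 with hr
    have hrpos : 0 < r := by
      have : 0 < |s.re| := lt_trans (by positivity) h5
      positivity
    have h6 : n ≤ r * Om := by
      have h7 : r0 * Om = n := by rw [hr0]; field_simp
      nlinarith
    have hNNr := hN r h6 (by linarith)
    have hz0 : iteratedDeriv n (fun z => G (I * (s.im : ℂ) + r * z)) ((s.re / r : ℝ) : ℂ) = 0 := by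
      rw [iter_comp H.diff, hcoord r hrpos, hbad.1, mul_zero]
    have hre : |(((s.re / r : ℝ) : ℂ)).re| = 3 := by
      rw [ofReal_re, abs_div, abs_of_pos hrpos, hr]
      have : |s.re| ≠ 0 := by
        have : 0 < |s.re| := lt_trans (by positivity) h5
        exact this.ne'
      field_simp
    exact h3 (r * Om) n _ hn1 h6 (NN_mono hNNr e3 (by positivity)) _ (by rw [hre]; norm_num)
      (by rw [hre]; norm_num) (by simp) hz0

end Pool.Agent.Hp428.TD
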