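import Pool.Agent.Hp428.TD.Comp
import Pool.Agent.Hp428.TD.Exist
import Pool.Agent.Hp428.TD.Good
import Pool.Agent.Hp428.TD.Main

set_option autoImplicit false

/-!
# The law for the derivatives
-/

namespace Pool.Agent.Hp428.TD

open Complex
open Pool.Agent.Y19.QT (IsLFun sqf mem_sqf HasTwists lindelofLaw_of TwistsModular isLFun_uniq)
open Pool.Agent.Y671.LD (bad)

theorem iter_shift (n : ℕ) (ω : ℂ) (M : ℂ → ℂ) (hM : Differentiable ℂ M) (z : ℂ) :
    iteratedDeriv n (fun z => ω * M (1 + z)) z = ω * iteratedDeriv n M (1 + z) := by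
  have h1 : ContDiff ℂ n (fun z => M (1 + z)) :=
    (hM.comp (differentiable_id.const_add 1)).contDiff
  rw [iteratedDeriv_const_mul_field, iteratedDeriv_comp_const_add]

theorem derivLaw_of {a b : ℤ} (hab : 4 * a ^ 3 + 27 * b ^ 2 ≠ 0) (h : HasTwists a b)
    (hL : ∀ d : ℤ, Squarefree d → ∃ F : ℂ → ℂ, IsLFun (a * d ^ 2) (b * d ^ 3) F) :
    DerivativeLaw a b := by
  have hlin := lindelofLaw_of hab h hL
  obtain ⟨Q, lam, ⟨T⟩, hQ, hlam⟩ := h
  refine ⟨exists_completed a b hab T hQ hlam hL, fun c M hM K => ?_⟩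
  obtain ⟨C, K3, hC, hK3, hgood⟩ := good_twists a b hab T hQ hlam hlin K
  have hl2 : 0 < Real.log 2 := Real.log_pos (by norm_num)
  have hlc : 0 ≤ Real.log (max 1 c) := Real.log_nonneg (le_max_left _ _)
  have hlc2 : 0 ≤ Real.log (max 1 c) / Real.log 2 := div_nonneg hlc hl2.le
  have hK0 : (0 : ℝ) ≤ K := Nat.cast_nonneg _
  obtain ⟨K2, L0, hK2, hL0, hmain⟩ := main_abs
    (K := K3 + Real.log (max 1 c) / Real.log 2 + K + Real.log (max 1 c) + 3) (by linarith)
  have hex : ∀ d : ℤ, ∃ F : ℂ → ℂ, Squarefree d → IsLFun (a * d ^ 2) (b * d ^ 3) F := by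
    intro d
    by_cases hd : Squarefree d
    · obtain ⟨F, hF⟩ := hL d hd
      exact ⟨F, fun _ => hF⟩
    · exact ⟨0, fun h => absurd h hd⟩
  choose F0 hF0 using hex
  refine ⟨C + 3 * L0 ^ K, K2, fun X S hX hS hbad => ?_⟩
  have hX0 : (0 : ℝ) < X := by exact_mod_cast (by omega : 0 < X)
  have hl := Pool.Agent.Y474.QTZ6.one_le_log hX
  have hLK : 0 < Real.log X ^ K := by positivity
  rcases le_total (Real.log X) L0 with hXL | hXL
  · refine (small_X (K := K) hX hXL S hS).trans ?_
    gcongr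
    linarith
  · have h5 : 5 ≤ Real.log X := by linarith
    have key : (S.card : ℝ) ≤ C * X / Real.log X ^ K := by
      refine hgood F0 hF0 X S hX h5 hS ?_
      rintro d hd ⟨hrn, hdl⟩
      obtain ⟨n, s, hn, h1, h2⟩ := hbad d hd
      obtain ⟨hdX, hsq⟩ := mem_sqf.1 (hS hd)
      have hd0 : d ≠ 0 := hsq.ne_zero
      have hdL : Real.log |(d : ℝ)| ≤ Real.log X := by
        apply Real.log_le_log (abs_pos.2 (by exact_mod_cast hd0))
        exact_mod_cast hdX
      obtain ⟨Q', R, G, ω, hω, hGQ, hG⟩ := gq_of (hM d hsq) (hF0 d hsq) (L := Real.log X)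
        (K := K3) (κ := K) h5 hK3 hK0 hd0 hdL hdl hrn
      have him : (s - 1).im = s.im := by simp
      refine hmain (Real.log X) Q' R G hXL hGQ n (s - 1) ?_ ?_
      · rw [him]
        exact hn
      · have e1 : (1 : ℂ) + (s - 1) = s := by ring
        unfold bad
        rw [hG, iter_shift n ω (M d) (hM d hsq).entire, iter_shift (n + 1) ω (M d) (hM d hsq).entire,
          e1, h1]
        refine ⟨mul_zero _, ?_⟩
        rcases h2 with h2 | h2
        · left
          intro h3
          apply h2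
          have h4 : (s - 1).re = s.re - 1 := by simp
          rw [h4] at h3
          linarith
        · right
          rw [h2, mul_zero]
    refine key.trans ?_
    gcongr
    have : 0 ≤ 3 * L0 ^ K := by positivity
    linarith

end Pool.Agent.Hp428.TD
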