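import Pool.Agent.H370R2.Digamma

set_option autoImplicit false

/-!
# The gamma function in the right half plane: the logarithmic derivative and ratios
-/

namespace Pool.Agent.Hp428.TD

open Complex Filter Topology Set
open H370.DG

/-- the digamma function at `1 + u`, `Re u ≥ 0` -/
theorem psi_le {u : ℂ} (hu : 0 ≤ u.re) : ‖logDeriv Gamma (1 + u) - (Real.log ‖u + 3‖ : ℝ)‖ ≤ 5 := by
  have hs : 0 < (1 + u).re := by simp; linarith
  have hre : (1 : ℝ) ≤ (1 + u).re := by simp; linarith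
  have hn1 : 1 ≤ ‖1 + u‖ := hre.trans (re_le_norm _)
  have hn2 : 2 ≤ ‖1 + u + 1‖ := by
    refine le_trans ?_ (re_le_norm _)
    simp; linarith
  have e3 : 1 + u + 2 = u + 3 := by ring
  have hpos : 0 < ‖u + 3‖ := by
    have h : (3 : ℝ) ≤ (u + 3).re := by simp; linarith
    have := h.trans (re_le_norm _)
    linarith
  have b1 : ‖1 / (1 + u)‖ ≤ 1 := by
    rw [norm_div, norm_one, div_le_iff₀ (by linarith)]
    linarith
  have b2 : ‖1 / (1 + u + 1)‖ ≤ 1 / 2 := by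
    rw [norm_div, norm_one, div_le_iff₀ (by linarith)]
    linarith
  have b3 : ‖log (1 + u + 2) - (Real.log ‖u + 3‖ : ℝ)‖ ≤ Real.pi / 2 := by
    have e : log (1 + u + 2) - (Real.log ‖u + 3‖ : ℝ) = (arg (u + 3) : ℂ) * I := by
      rw [e3, log]
      push_cast
      ring
    rw [e, norm_mul, norm_I, mul_one, Complex.norm_real, Real.norm_eq_abs]
    rw [abs_arg_le_pi_div_two_iff]
    simp; linarith
  have b4 : ‖∑' n, er n (1 + u)‖ ≤ Real.pi ^ 2 / 6 := by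
    refine (norm_tsum_er hs).trans (le_of_eq ?_)
    have h1 := hasSum_zeta_two
    have h2 := (hasSum_nat_add_iff' (f := fun n : ℕ => 1 / (n : ℝ) ^ 2) 1).2 h1
    have h3 := h2.tsum_eq
    simp only [Finset.range_one, Finset.sum_singleton, Nat.cast_zero] at h3
    norm_num at h3 ⊢
    exact h3
  rw [logDeriv_Gamma' hs]
  have e : log (1 + u + 2) - 1 / (1 + u) - 1 / (1 + u + 1) + ∑' n, er n (1 + u) -
      (Real.log ‖u + 3‖ : ℝ) = (log (1 + u + 2) - (Real.log ‖u + 3‖ : ℝ)) - 1 / (1 + u) -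
      1 / (1 + u + 1) + ∑' n, er n (1 + u) := by ring
  rw [e]
  have hpi := Real.pi_lt_d2
  have hpi0 := Real.pi_pos
  calc _ ≤ ‖(log (1 + u + 2) - (Real.log ‖u + 3‖ : ℝ)) - 1 / (1 + u) -
      1 / (1 + u + 1)‖ + ‖∑' n, er n (1 + u)‖ := norm_add_le _ _
    _ ≤ (‖(log (1 + u + 2) - (Real.log ‖u + 3‖ : ℝ)) - 1 / (1 + u)‖ + ‖1 / (1 + u + 1)‖) +
        ‖∑' n, er n (1 + u)‖ := by
        gcongr
        exact norm_sub_le _ _
    _ ≤ ((‖(log (1 + u + 2) - (Real.log ‖u + 3‖ : ℝ))‖ + ‖1 / (1 + u)‖) + ‖1 / (1 + u + 1)‖) +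
        ‖∑' n, er n (1 + u)‖ := by
        gcongr
        exact norm_sub_le _ _
    _ ≤ ((Real.pi / 2 + 1) + 1 / 2) + Real.pi ^ 2 / 6 := by gcongr
    _ ≤ 5 := by nlinarith

theorem psi_norm {u : ℂ} (hu : 0 ≤ u.re) : ‖logDeriv Gamma (1 + u)‖ ≤ 5 + Real.log ‖u + 3‖ := by
  have h1 := psi_le hu
  have h2 : ‖logDeriv Gamma (1 + u)‖ ≤ ‖logDeriv Gamma (1 + u) - (Real.log ‖u + 3‖ : ℝ)‖ +
      ‖((Real.log ‖u + 3‖ : ℝ) : ℂ)‖ := by
    have := norm_add_le (logDeriv Gamma (1 + u) - (Real.log ‖u + 3‖ : ℝ)) ((Real.log ‖u + 3‖ : ℝ) : ℂ)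
    rwa [sub_add_cancel] at this
  have h3 : 1 ≤ ‖u + 3‖ := by
    have h : (3 : ℝ) ≤ (u + 3).re := by simp; linarith
    have := h.trans (re_le_norm _)
    linarith
  rw [Complex.norm_real, Real.norm_eq_abs, abs_of_nonneg (Real.log_nonneg h3)] at h2
  linarith

theorem norm_Gamma_eq {u : ℂ} (hu : 0 ≤ u.re) : Real.log ‖Gamma (1 + u)‖ = (lG (1 + u)).re := by
  have hs : 0 < (1 + u).re := by simp; linarith
  rw [← exp_lG hs, Complex.norm_exp, Real.log_exp]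

/-- comparison of two values of the gamma function -/
theorem gam_seg {S : Set ℂ} (hS : Convex ℝ S) (h0 : ∀ u ∈ S, 0 ≤ u.re) {l ε : ℝ}
    (hb : ∀ u ∈ S, ‖logDeriv Gamma (1 + u) - (l : ℂ)‖ ≤ ε) {u v : ℂ} (hu : u ∈ S) (hv : v ∈ S) :
    |Real.log ‖Gamma (1 + v)‖ - Real.log ‖Gamma (1 + u)‖ - l * (v.re - u.re)| ≤ ε * ‖v - u‖ := by
  have hd : ∀ x ∈ S, HasDerivWithinAt (fun x : ℂ => lG (1 + x) - l * x)
      (logDeriv Gamma (1 + x) - l) S x := by
    intro x hx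
    have hs : 0 < (1 + x).re := by simp; linarith [h0 x hx]
    have h1 := hasDerivAt_lG hs
    rw [← logDeriv_Gamma hs] at h1
    have h2 : HasDerivAt (fun x : ℂ => 1 + x) 1 x := (hasDerivAt_id x).const_add 1
    have h3 := HasDerivAt.comp x h1 h2
    rw [mul_one] at h3
    have h4 : HasDerivAt (fun x : ℂ => (l : ℂ) * x) (l : ℂ) x := by
      simpa using (hasDerivAt_id x).const_mul (l : ℂ)
    exact (h3.sub h4).hasDerivWithinAt
  have h := hS.norm_image_sub_le_of_norm_hasDerivWithin_le hd hb hu hv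
  refine le_trans ?_ h
  refine le_trans (le_of_eq ?_) (abs_re_le_norm _)
  congr 1
  rw [norm_Gamma_eq (h0 u hu), norm_Gamma_eq (h0 v hv)]
  simp
  ring

theorem Gamma_ne {u : ℂ} (hu : 0 ≤ u.re) : Gamma (1 + u) ≠ 0 :=
  Gamma_ne_zero_of_re_pos (by simp; linarith)

/-- growth of the gamma function -/
theorem gam_growth {u : ℂ} (hu : 0 ≤ u.re) :
    ‖Gamma (1 + u)‖ ≤ Real.exp (‖u‖ * (5 + Real.log (‖u‖ + 3))) := by
  have hpos : 0 < ‖Gamma (1 + u)‖ := norm_pos_iff.2 (Gamma_ne hu)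
  rw [← Real.exp_log hpos]
  apply Real.exp_le_exp.2
  have h := gam_seg (S := {x : ℂ | 0 ≤ x.re} ∩ Metric.closedBall 0 ‖u‖)
    ((convex_halfSpace_re_ge 0).inter (convex_closedBall _ _)) (fun x hx => hx.1) (l := 0)
    (ε := 5 + Real.log (‖u‖ + 3)) ?_ (u := 0) (v := u) ⟨by simp, by simp⟩ ⟨hu, by simp⟩
  · simp only [add_zero, Gamma_one, norm_one, Real.log_one, sub_zero, zero_mul] at h
    have := (abs_le.1 h).2
    linarith
  · rintro x ⟨hx1, hx2⟩
    have hx2' : ‖x‖ ≤ ‖u‖ := by simpa using hx2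
    have h1 := psi_norm (u := x) hx1
    simp only [ofReal_zero, sub_zero]
    refine h1.trans ?_
    have h3 : 0 < ‖x + 3‖ := by
      have h : (3 : ℝ) ≤ (x + 3).re := by simp; exact hx1
      have := h.trans (re_le_norm _)
      linarith
    have h2 : ‖x + 3‖ ≤ ‖u‖ + 3 := by
      refine (norm_add_le _ _).trans ?_
      have : ‖(3 : ℂ)‖ = 3 := by simp
      linarith
    have := Real.log_le_log h3 h2
    linarith

end Pool.Agent.Hp428.TD
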