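import Pool.Agent.Y19.QT.Forms

set_option autoImplicit false

/-!
# The derivatives of the completed L-functions of quadratic twists: definitions
-/

namespace Pool.Agent.Hp428.TD

open Complex
open Pool.Agent.Y19.QT (IsLFun sqf)
open scoped ComplexConjugate

/-- `M` is a completed L-function of `E_d : y² = x³ + a d² x + b d³`, with constant `c`: `M` is entire,
real on the real axis, `M(2 - s) = w M(s)` with `w = ±1`, and for `Re s > 3/2`
`M(s) = (q / 2π)^s Γ(s) E(s) F(s)`, where `F` is the L-function of `E_d` without the Euler factors at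
the primes dividing `2 (4 a³ + 27 b²) d`, `q` (square root of the conductor) lies between `|d| / c` and
`c |d|`, and `E` (the product of the remaining Euler factors) is analytic and of absolute value between
`1 / c` and `c` in `Re s > 3/4`. -/
structure IsCompleted (a b d : ℤ) (c : ℝ) (M : ℂ → ℂ) : Prop where
  entire : Differentiable ℂ M
  real : ∀ s : ℂ, M (conj s) = conj (M s)
  fe : ∃ w : ℝ, (w = 1 ∨ w = -1) ∧ ∀ s : ℂ, M (2 - s) = w * M s
  euler : ∃ (q : ℝ) (E F : ℂ → ℂ), 0 < q ∧ |(d : ℝ)| ≤ c * q ∧ q ≤ c * |(d : ℝ)| ∧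
    DifferentiableOn ℂ E {s : ℂ | 3 / 4 < s.re} ∧
    (∀ s : ℂ, 3 / 4 < s.re → ‖E s‖ ≤ c ∧ 1 ≤ c * ‖E s‖) ∧
    IsLFun (a * d ^ 2) (b * d ^ 3) F ∧
    ∀ s : ℂ, 3 / 2 < s.re →
      M s = ((q / (2 * Real.pi) : ℝ) : ℂ) ^ s * Gamma s * (E s * F s)

/-- The Riemann hypothesis for the derivatives of the completed L-functions of almost all quadratic
twists `E_d : y² = x³ + a d² x + b d³` of `E : y² = x³ + a x + b`, `d` squarefree (positive or
negative): the completed L-functions exist, with a constant `c` depending on `E` only; and for every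
`c` and every choice of completed L-functions `M_d` with this constant, for every `K` there are `C`, `K'`
such that for all `X ≥ 3` and for all squarefree `d`, `|d| ≤ X`, except at most `C X / (log X)^K` of
them, every zero `s`, at any height, of every derivative `M_d^(n)` of order
`n ≥ K' (log log X + log (2 + |Im s|))` is simple and lies on the critical line `Re s = 1`. -/
def DerivativeLaw (a b : ℤ) : Prop :=
  (∃ c : ℝ, ∀ d : ℤ, Squarefree d → ∃ M : ℂ → ℂ, IsCompleted a b d c M) ∧
  ∀ (c : ℝ) (M : ℤ → ℂ → ℂ), (∀ d : ℤ, Squarefree d → IsCompleted a b d c (M d)) →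
    ∀ K : ℕ, ∃ C K' : ℝ, ∀ (X : ℕ) (S : Finset ℤ), 3 ≤ X → S ⊆ sqf X →
      (∀ d ∈ S, ∃ (n : ℕ) (s : ℂ),
        K' * (Real.log (Real.log X) + Real.log (2 + |s.im|)) ≤ n ∧
        iteratedDeriv n (M d) s = 0 ∧ (s.re ≠ 1 ∨ iteratedDeriv (n + 1) (M d) s = 0)) →
      (S.card : ℝ) ≤ C * X / Real.log X ^ K

end Pool.Agent.Hp428.TD
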