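import Pool.Agent.Hp428.TD.Core

set_option autoImplicit false

/-!
# The standing numerical assumptions and their first consequences
-/

namespace Pool.Agent.Hp428.TD

open Complex Filter Topology Set
open scoped ComplexConjugate

/-- the standing assumptions -/
structure St (ε K CH L y y0 r n : ℝ) : Prop where
  hε : 0 < ε
  hε1 : ε ≤ 1 / 10000
  hK : 1 ≤ K
  hCH : 1 ≤ CH
  hL : 100 ≤ L
  l1 : K * Real.log L ≤ ε * L
  l2 : 5 + Real.log (23002 * Oq L y n) ≤ ε * Oq L y n
  l3 : Real.log (1 + 2000 * Oq L y n) ≤ Oq L y n / 4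
  l4 : 60000 * K ≤ L
  l5 : 56 * K * CH / ε ≤ L
  hn : (16000 * K + 4 * K * CH / ε) * el L y ≤ n
  hy : |y0 - y| ≤ r
  hr : n ≤ r * Oq L y n
  hr2 : r ≤ n + 1

namespace St

variable {ε K CH L y y0 r n : ℝ}

theorem n_pos (S : St ε K CH L y y0 r n) : 0 < n := by
  have h1 := el_pos (L := L) (by linarith [S.hL]) y
  have hK := S.hK
  have hC := S.hCH
  have hε := S.hε
  have h2 : 0 < (16000 * K + 4 * K * CH / ε) * el L y := by positivity
  linarith [S.hn]

theorem Om_ge (S : St ε K CH L y y0 r n) : L ≤ Oq L y n := by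
  unfold Oq
  have h : 0 ≤ Real.log (2 + |y| + n) := Real.log_nonneg (by
    have := abs_nonneg y
    have := S.n_pos
    linarith)
  linarith

theorem Om_pos (S : St ε K CH L y y0 r n) : 100 ≤ Oq L y n := S.hL.trans S.Om_ge

theorem r_pos (S : St ε K CH L y y0 r n) : 0 < r := by
  have h1 := S.n_pos
  have h2 := S.hr
  have h3 := S.Om_pos
  by_contra hcon
  push Not at hcon
  nlinarith

theorem y0_le (S : St ε K CH L y y0 r n) : |y0| ≤ |y| + r := by
  have h1 : |y0| ≤ |y0 - y| + |y| := by
    calc |y0| = |(y0 - y) + y| := by ring_nf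
      _ ≤ _ := abs_add_le _ _
  linarith [S.hy]

theorem y_le (S : St ε K CH L y y0 r n) : |y| ≤ |y0| + r := by
  have h1 : |y| ≤ |y0 - y| + |y0| := by
    calc |y| = |-(y0 - y) + y0| := by ring_nf
      _ ≤ |-(y0 - y)| + |y0| := abs_add_le _ _
      _ = _ := by rw [abs_neg]
  linarith [S.hy]

/-- the region of the good lower bound -/
theorem reg (S : St ε K CH L y y0 r n) {w : ℂ} (h1 : r / 2000 ≤ w.re) (h2 : |w.im| ≤ |y| + 27 * r) :
    K * el L w.im ≤ L * w.re ∨ 1 ≤ w.re := by
  rcases le_or_gt 1 w.re with h | h
  · exact Or.inr h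
  left
  have hr0 := S.r_pos
  have hL := S.hL
  have hK := S.hK
  have hO := S.Om_pos
  have hOL := S.Om_ge
  have hn := S.hn
  have hr := S.hr
  have hC := S.hCH
  have hε := S.hε
  have hr2000 : r < 2000 := by linarith
  have he := el_near (L := L) hr0.le h2
  have hel := el_nonneg (L := L) (by linarith) y
  have hn' : 16000 * K * el L y ≤ n := by
    have : 0 ≤ 4 * K * CH / ε * el L y := by positivity
    nlinarith
  -- the main case
  have key : K * el L y ≤ L * r / 4000 := by
    rcases le_or_gt (Oq L y n) (4 * L) with h3 | h3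
    · have h4 : 16000 * K * el L y ≤ 4 * L * r := by
        calc _ ≤ n := hn'
          _ ≤ r * Oq L y n := hr
          _ ≤ r * (4 * L) := by gcongr
          _ = _ := by ring
      nlinarith
    · exfalso
      set Om := Oq L y n with hOm
      have hlam : 3 / 4 * Om ≤ Real.log (2 + |y| + n) := by
        have : Om = L + Real.log (2 + |y| + n) := rfl
        linarith
      have hn0 := S.n_pos
      have hy := abs_nonneg y
      have h5 : Real.log (2 + |y| + n) ≤ Real.log (2 + |y|) + Real.log (1 + n) := by
        rw [← Real.log_mul (by positivity) (by positivity)]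
        apply Real.log_le_log (by positivity)
        nlinarith
      have h6 : Real.log (1 + n) ≤ Real.log (1 + 2000 * Om) := by
        apply Real.log_le_log (by positivity)
        nlinarith
      have h7 := S.l3
      rw [← hOm] at h7
      have h8 : Om / 2 ≤ el L y := by
        unfold el
        have := Real.log_nonneg (x := L) (by linarith)
        linarith
      have h9 : 16000 * K * (Om / 2) ≤ n := by
        refine le_trans ?_ hn'
        gcongr
      nlinarith
  have hl4 := S.l4
  have h5 : K * (14 * r) ≤ L * r / 4200 := by nlinarith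
  calc K * el L w.im ≤ K * (el L y + 14 * r) := by gcongr
    _ = K * el L y + K * (14 * r) := by ring
    _ ≤ L * r / 4000 + L * r / 4200 := add_le_add key h5
    _ ≤ L * (r / 2000) + 0 := by nlinarith
    _ ≤ L * w.re := by nlinarith

end St

end Pool.Agent.Hp428.TD
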