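import Pool.Agent.Hp428.TD.Loc

set_option autoImplicit false

/-!
# The gamma factor and the L-function near `i y0`
-/

namespace Pool.Agent.Hp428.TD

open Complex Filter Topology Set
open scoped ComplexConjugate

namespace St

variable {ε K CH L y y0 r n : ℝ}

theorem im_le {u : ℂ} (h : ‖u - I * y0‖ ≤ 21 * r) : |u.im| ≤ |y0| + 21 * r ∧ |y0| ≤ |u.im| + 21 * r := by
  have h1 : |u.im - y0| ≤ 21 * r := by
    have h2 := (abs_im_le_norm (u - I * y0)).trans h
    have e : (u - I * y0).im = u.im - y0 := by simp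
    rwa [e] at h2
  constructor
  · calc |u.im| = |(u.im - y0) + y0| := by ring_nf
      _ ≤ |u.im - y0| + |y0| := abs_add_le _ _
      _ ≤ _ := by linarith
  · calc |y0| = |-(u.im - y0) + u.im| := by ring_nf
      _ ≤ |-(u.im - y0)| + |u.im| := abs_add_le _ _
      _ = |u.im - y0| + |u.im| := by rw [abs_neg]
      _ ≤ _ := by linarith

theorem up3 (S : St ε K CH L y y0 r n) {u : ℂ} (h : ‖u - I * y0‖ ≤ 21 * r) :
    ‖u + 3‖ ≤ 25 * (2 + |y| + n) := by
  have h1 : ‖u + 3‖ ≤ ‖u - I * y0‖ + ‖I * y0‖ + 3 := by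
    have e : u + 3 = (u - I * y0) + I * y0 + 3 := by ring
    rw [e]
    refine (norm_add_le _ _).trans ?_
    have : ‖(3 : ℂ)‖ = 3 := by simp
    rw [this]
    gcongr
    exact norm_add_le _ _
  have h2 : ‖I * (y0 : ℂ)‖ = |y0| := by simp
  have h3 := S.y0_le
  have h4 := S.hr2
  have h5 := S.n_pos
  have h6 := abs_nonneg y
  rw [h2] at h1
  linarith

/-- the digamma function near `i y0`, upper bound -/
theorem gam_all (S : St ε K CH L y y0 r n) {u : ℂ} (h0 : 0 ≤ u.re) (h : ‖u - I * y0‖ ≤ 21 * r) :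
    ‖logDeriv Gamma (1 + u)‖ ≤ 9 + Real.log (2 + |y| + n) := by
  have h1 := psi_norm h0
  have h2 := S.up3 h
  have h5 := S.n_pos
  have h6 := abs_nonneg y
  have h3 : 0 < ‖u + 3‖ := by
    have h : (3 : ℝ) ≤ (u + 3).re := by simp; linarith
    have := h.trans (re_le_norm _)
    linarith
  have h4 := Real.log_le_log h3 h2
  rw [Real.log_mul (by norm_num) (by positivity)] at h4
  have h7 : Real.log 25 ≤ 4 := by
    rw [Real.log_le_iff_le_exp (by norm_num)]
    have h8 : Real.exp 4 = Real.exp 1 ^ 4 := by rw [← Real.exp_nat_mul]; norm_num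
    rw [h8]
    have h9 := Real.exp_one_gt_d9
    calc (25 : ℝ) ≤ 2.7 ^ 4 := by norm_num
      _ ≤ _ := by gcongr; linarith
  linarith

/-- the digamma function near `i y0`, not near the line -/
theorem gam_reg (S : St ε K CH L y y0 r n) {u : ℂ} (h0 : r / 1000 ≤ u.re)
    (h : ‖u - I * y0‖ ≤ 21 * r) :
    ‖logDeriv Gamma (1 + u) - (Real.log (2 + |y| + n) : ℝ)‖ ≤ ε * Oq L y n := by
  have hr := S.r_pos
  have hu0 : 0 ≤ u.re := le_trans (by positivity) h0
  have h1 := psi_le hu0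
  have hO := S.Om_pos
  set Om := Oq L y n with hOm
  have hn := S.n_pos
  have hy := abs_nonneg y
  have h2 := S.up3 h
  have h3 : u.re + 3 ≤ ‖u + 3‖ := by
    refine le_trans (le_of_eq ?_) (re_le_norm _)
    simp
  have h3' : |u.im| ≤ ‖u + 3‖ := by
    refine le_trans (le_of_eq ?_) (abs_im_le_norm _)
    simp
  obtain ⟨-, h4⟩ := im_le h
  have h5 := S.y_le
  have h6 := S.hr
  rw [← hOm] at h6
  have hN : 0 < ‖u + 3‖ := by linarith
  have h7 : n ≤ 1000 * Om * ‖u + 3‖ := by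
    calc n ≤ r * Om := h6
      _ ≤ (1000 * ‖u + 3‖) * Om := by gcongr; linarith
      _ = _ := by ring
  have h8 : 2 + |y| + n ≤ 23002 * Om * ‖u + 3‖ := by
    have h9 : 2 + |y| ≤ 22002 * ‖u + 3‖ := by linarith
    have h10 : 22002 * ‖u + 3‖ ≤ 22002 * Om * ‖u + 3‖ := by nlinarith
    nlinarith
  have h11 : ‖u + 3‖ ≤ 23002 * Om * (2 + |y| + n) := by
    refine h2.trans ?_
    have : 0 < 2 + |y| + n := by positivity
    nlinarith
  have hp : 0 < 2 + |y| + n := by positivity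
  have h12 : |Real.log ‖u + 3‖ - Real.log (2 + |y| + n)| ≤ Real.log (23002 * Om) := by
    rw [abs_le]
    constructor
    · have := Real.log_le_log hp h8
      rw [Real.log_mul (by positivity) hN.ne'] at this
      linarith
    · have := Real.log_le_log hN h11
      rw [Real.log_mul (by positivity) hp.ne'] at this
      linarith
  have h13 := S.l2
  rw [← hOm] at h13
  have e : logDeriv Gamma (1 + u) - (Real.log (2 + |y| + n) : ℝ) =
      (logDeriv Gamma (1 + u) - (Real.log ‖u + 3‖ : ℝ)) +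
        ((Real.log ‖u + 3‖ - Real.log (2 + |y| + n) : ℝ) : ℂ) := by push_cast; ring
  rw [e]
  refine (norm_add_le _ _).trans ?_
  rw [Complex.norm_real, Real.norm_eq_abs]
  linarith

theorem dist_z {z : ℂ} (hr : 0 < r) (hz : ‖z‖ ≤ 21) : ‖I * y0 + r * z - I * y0‖ ≤ 21 * r := by
  have e : I * (y0 : ℂ) + r * z - I * y0 = r * z := by ring
  rw [e, norm_mul, Complex.norm_real, Real.norm_eq_abs, abs_of_pos hr]
  nlinarith

/-- ratio of gamma factors -/
theorem gam_ratio (S : St ε K CH L y y0 r n) {z : ℂ} (h0 : 0 ≤ z.re) (h1 : z.re ≤ 1 / 1000)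
    (hz : ‖z‖ ≤ 20) :
    Real.log ‖Gamma (1 + (I * y0 + r * z))‖ ≤ Real.log ‖Gamma (1 + (I * y0 + r * 1))‖ -
      Real.log (2 + |y| + n) * (r * (99 / 100 - z.re)) + ε * Oq L y n * (22 * r) +
      (9 + Real.log (2 + |y| + n)) * (r / 100) := by
  have hr := S.r_pos
  have hre : ∀ x : ℂ, (I * (y0 : ℂ) + r * x).re = r * x.re := by intro x; simp
  set z' : ℂ := z + 1 / 100 with hz'
  have hz're : z'.re = z.re + 1 / 100 := by
    rw [hz']; simp
  have hz'n : ‖z'‖ ≤ 21 := by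
    refine (norm_add_le _ _).trans ?_
    have : ‖(1 / 100 : ℂ)‖ = 1 / 100 := by simp
    linarith
  -- first piece
  set S1 : Set ℂ := {x : ℂ | 0 ≤ x.re} ∩ Metric.closedBall (I * (y0 : ℂ)) (21 * r) with hS1
  have c1 : Convex ℝ S1 := (convex_halfSpace_re_ge 0).inter (convex_closedBall _ _)
  have hb1 : ∀ u ∈ S1, ‖logDeriv Gamma (1 + u) - ((0 : ℝ) : ℂ)‖ ≤ 9 + Real.log (2 + |y| + n) := by
    rintro u ⟨h2, h3⟩
    rw [ofReal_zero, sub_zero]
    rw [Metric.mem_closedBall, dist_eq_norm] at h3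
    exact S.gam_all h2 h3
  have m1 : I * (y0 : ℂ) + r * z ∈ S1 := by
    refine ⟨?_, ?_⟩
    · show 0 ≤ (I * (y0 : ℂ) + r * z).re
      rw [hre]; positivity
    · rw [Metric.mem_closedBall, dist_eq_norm]
      exact dist_z hr (by linarith)
  have m2 : I * (y0 : ℂ) + r * z' ∈ S1 := by
    refine ⟨?_, ?_⟩
    · show 0 ≤ (I * (y0 : ℂ) + r * z').re
      rw [hre, hz're]; positivity
    · rw [Metric.mem_closedBall, dist_eq_norm]
      exact dist_z hr hz'n
  have g1 := gam_seg c1 (fun u hu => hu.1) hb1 m2 m1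
  have d1 : ‖I * (y0 : ℂ) + r * z - (I * (y0 : ℂ) + r * z')‖ = r / 100 := by
    have e : I * (y0 : ℂ) + r * z - (I * (y0 : ℂ) + r * z') = ((-(r / 100) : ℝ) : ℂ) := by
      rw [hz']; push_cast; ring
    rw [e, Complex.norm_real, Real.norm_eq_abs, abs_neg, abs_of_pos (by positivity)]
  rw [d1, zero_mul, sub_zero] at g1
  have g1' := (abs_le.1 g1).2
  -- second piece
  set S2 : Set ℂ := {x : ℂ | r / 1000 ≤ x.re} ∩ Metric.closedBall (I * (y0 : ℂ)) (21 * r) with hS2
  have c2 : Convex ℝ S2 := (convex_halfSpace_re_ge _).inter (convex_closedBall _ _)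
  have hb2 : ∀ u ∈ S2, ‖logDeriv Gamma (1 + u) - (Real.log (2 + |y| + n) : ℝ)‖ ≤ ε * Oq L y n := by
    rintro u ⟨h2, h3⟩
    rw [Metric.mem_closedBall, dist_eq_norm] at h3
    exact S.gam_reg h2 h3
  have m3 : I * (y0 : ℂ) + r * z' ∈ S2 := by
    refine ⟨?_, m2.2⟩
    show r / 1000 ≤ (I * (y0 : ℂ) + r * z').re
    rw [hre, hz're]; nlinarith
  have m4 : I * (y0 : ℂ) + r * 1 ∈ S2 := by
    refine ⟨?_, ?_⟩
    · show r / 1000 ≤ (I * (y0 : ℂ) + r * 1).re
      rw [hre, one_re]; nlinarith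
    · rw [Metric.mem_closedBall, dist_eq_norm]
      exact dist_z hr (by simp)
  have g2 := gam_seg c2 (fun u hu => le_trans (by positivity) hu.1) hb2 m4 m3
  have d2 : ‖I * (y0 : ℂ) + r * z' - (I * (y0 : ℂ) + r * 1)‖ ≤ 22 * r := by
    have e : I * (y0 : ℂ) + r * z' - (I * (y0 : ℂ) + r * 1) = r * (z' - 1) := by ring
    rw [e, norm_mul, Complex.norm_real, Real.norm_eq_abs, abs_of_pos hr]
    have : ‖z' - 1‖ ≤ 22 := by
      refine (norm_sub_le _ _).trans ?_
      rw [norm_one]; linarith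
    nlinarith
  have hεO : 0 ≤ ε * Oq L y n := by
    have := S.hε; have := S.Om_pos; positivity
  have g2' := (abs_le.1 g2).2
  have g3 : ε * Oq L y n * ‖I * (y0 : ℂ) + r * z' - (I * (y0 : ℂ) + r * 1)‖ ≤
      ε * Oq L y n * (22 * r) := mul_le_mul_of_nonneg_left d2 hεO
  rw [hre, hre, one_re, hz're] at g2'
  have e3 : Real.log (2 + |y| + n) * (r * (z.re + 1 / 100) - r * 1) =
      -(Real.log (2 + |y| + n) * (r * (99 / 100 - z.re))) := by ring
  rw [e3] at g2'
  linarith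

/-- the size of the bounds for the L-function -/
theorem B_le (S : St ε K CH L y y0 r n) : CH * (2 * K * (el L y + 14 * r)) ≤ ε * (r * Oq L y n) := by
  have hr := S.r_pos
  have hL := S.hL
  have hK := S.hK
  have hO := S.Om_pos
  have hOL := S.Om_ge
  have hn := S.hn
  have hr1 := S.hr
  have hC := S.hCH
  have hε := S.hε
  have hel := el_nonneg (L := L) (by linarith) y
  have h5 := S.l5
  rw [div_le_iff₀ hε] at h5
  have h1 : 4 * K * CH * el L y ≤ ε * (r * Oq L y n) := by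
    have h2 : 4 * K * CH / ε * el L y ≤ n := by
      have : 0 ≤ 16000 * K * el L y := by positivity
      nlinarith
    have h3 : 4 * K * CH / ε * el L y ≤ r * Oq L y n := h2.trans hr1
    have h4 : ε * (4 * K * CH / ε * el L y) = 4 * K * CH * el L y := by field_simp
    rw [← h4]
    exact mul_le_mul_of_nonneg_left h3 hε.le
  have h2 : 56 * K * CH * r ≤ ε * (r * Oq L y n) := by
    calc 56 * K * CH * r ≤ (L * ε) * r := by gcongr
      _ ≤ (Oq L y n * ε) * r := by gcongr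
      _ = _ := by ring
  nlinarith

end St

end Pool.Agent.Hp428.TD
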