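import Pool.Agent.Hp428.TD.Cnt
import Pool.Agent.Y19.QT.ZD

set_option autoImplicit false

/-!
# The mollifier for almost all twists
-/

namespace Pool.Agent.Hp428.TD

open Complex MeasureTheory Finset
open Pool.Agent.Y19.QT (Twists sqf mem_sqf Mol)
open Pool.Agent.Y474.QTZ6 (Box mem_Box YY one_le_log ff ff_diff)

variable {Q : ℕ} {lam : ℕ → ℝ}

theorem mean_box (T : Twists Q lam) : ∃ (C : ℝ) (A B : ℕ), 0 < C ∧ ∀ (X : ℕ) (δ U : ℝ) (s : ℂ),
      3 ≤ X → 1 / Real.log X ≤ δ → δ ≤ 1 / 8 → 0 ≤ U → 1 / 2 + 3 * δ ≤ s.re → s.re ≤ 1 + δ →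
      |s.im| ≤ U + 1 →
      ∑ d ∈ sqf X, ‖T.Lq d s * Mol Q lam (YY X) d s - 1‖ ≤
        C * (1 + U) ^ B * (X : ℝ) ^ (1 - δ / 4) * Real.log X ^ A :=
  Pool.Agent.Y474.QTHZ6.mean_boxH T (Pool.Agent.Y369.QTZ1.Z1 T)
    (Pool.Agent.Y203.QTZ2.Z2 Q lam T.hecke) (Pool.Agent.Y19.QT.HZ3 T)

theorem YY_one {X : ℕ} (hX : 3 ≤ X) : 1 ≤ YY X := by
  unfold YY
  rw [Nat.one_le_floor_iff]
  exact Real.one_le_rpow (by exact_mod_cast (by omega : 1 ≤ X)) (by norm_num)

theorem YY_four {X : ℕ} : (YY X : ℝ) ^ 4 ≤ X := by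
  have hX0 : (0 : ℝ) ≤ X := Nat.cast_nonneg _
  have h1 : ((X : ℝ) ^ (1 / 4 : ℝ)) ^ 4 = X := by
    rw [← Real.rpow_natCast, ← Real.rpow_mul hX0]
    norm_num
  calc (YY X : ℝ) ^ 4 ≤ ((X : ℝ) ^ (1 / 4 : ℝ)) ^ 4 :=
        pow_le_pow_left₀ (Nat.cast_nonneg _) (Nat.floor_le (by positivity)) 4
    _ = _ := h1

theorem ceil_facts (y : ℝ) : |y| ≤ (⌈|y|⌉₊ : ℝ) ∧ (1 + (⌈|y|⌉₊ : ℝ)) ≤ 2 + |y| := by
  refine ⟨Nat.le_ceil _, ?_⟩
  have := Nat.ceil_lt_add_one (abs_nonneg y)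
  linarith

/-- `X^(-δ/4)` as a power of `L (1 + U)` -/
theorem rpow_eq {X : ℕ} (hX : 3 ≤ X) {U K1 : ℝ} (hU : 0 ≤ U) :
    (X : ℝ) ^ (1 - (K1 * (Real.log (Real.log X) + Real.log (1 + U)) / (16 * Real.log X)) / 4) =
      X * (Real.log X * (1 + U)) ^ (-(K1 / 64)) := by
  have hl := one_le_log hX
  have hX0 : (0 : ℝ) < X := by exact_mod_cast (by omega : 0 < X)
  have hL0 : 0 < Real.log X := by linarith
  rw [sub_eq_add_neg, Real.rpow_add hX0, Real.rpow_one, Real.rpow_def_of_pos hX0,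
    Real.rpow_def_of_pos (by positivity), Real.log_mul hL0.ne' (by positivity)]
  congr 2
  field_simp
  ring

/-- P1: `L M` is close to `1` for almost all twists -/
theorem P1 (T : Twists Q lam) (Kx : ℕ) : ∃ C K0 : ℝ, 0 ≤ C ∧ 32 ≤ K0 ∧ ∀ K1 : ℝ, K0 ≤ K1 →
    ∀ (X : ℕ) (S : Finset ℤ), 3 ≤ X → 1 ≤ Real.log (Real.log X) → S ⊆ sqf X →
      (∀ d ∈ S, ∃ s0 : ℂ, K1 * el (Real.log X) s0.im ≤ 2 * Real.log X ∧
        1 / 2 + K1 * el (Real.log X) s0.im / Real.log X ≤ s0.re ∧ s0.re ≤ 1 + 1 / Real.log X ∧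
        1 / 2 ≤ ‖T.Lq d s0 * Mol Q lam (YY X) d s0 - 1‖) →
      (S.card : ℝ) ≤ C * X / Real.log X ^ Kx := by
  classical
  obtain ⟨Cm, A, B, hCm, hmean⟩ := mean_box T
  refine ⟨2 * (72 * Cm), 64 * (A + B + Kx + 6), by positivity, ?_, ?_⟩
  · have : (0 : ℝ) ≤ A + B + Kx := by positivity
    linarith
  intro K1 hK1 X S hX hLL hSX hS
  have hK1' : 32 ≤ K1 := by
    have : (0 : ℝ) ≤ A + B + Kx := by positivity
    linarith
  have hl := one_le_log hX
  have hX0 : (0 : ℝ) < X := by exact_mod_cast (by omega : 0 < X)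
  set L := Real.log X with hL
  have hL0 : 0 < L := by linarith
  choose! s0 hs0 using hS
  set u : ℤ → ℕ := fun d => ⌈|(s0 d).im|⌉₊ with hu
  have hM : 0 ≤ 72 * Cm * X / L ^ Kx := by positivity
  have key := sum_heights S u hM (fun U => ?_)
  · refine key.trans (le_of_eq ?_)
    ring
  -- a fixed height
  set SU := S.filter (fun d => u d = U) with hSU
  rcases SU.eq_empty_or_nonempty with he | ⟨d0, hd0⟩
  · rw [he, Finset.card_empty]
    push_cast
    positivity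
  have hU0 : (0 : ℝ) ≤ U := Nat.cast_nonneg _
  have hlog1U : 0 ≤ Real.log (1 + U) := Real.log_nonneg (by linarith)
  set δ : ℝ := K1 * (Real.log L + Real.log (1 + U)) / (16 * L) with hδ
  have hel : ∀ d ∈ SU, Real.log L + Real.log (1 + U) ≤ el L (s0 d).im := by
    intro d hd
    have h1 : u d = U := (Finset.mem_filter.1 hd).2
    unfold el
    have h2 := (ceil_facts (s0 d).im).2
    rw [show ⌈|(s0 d).im|⌉₊ = U from h1] at h2
    have := Real.log_le_log (by positivity) h2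
    linarith
  have hδ8 : δ ≤ 1 / 8 := by
    have h1 := hel d0 hd0
    have h2 := (hs0 d0 (Finset.mem_filter.1 hd0).1).1
    rw [hδ, div_le_iff₀ (by positivity)]
    have h3 : K1 * (Real.log L + Real.log (1 + U)) ≤ K1 * el L (s0 d0).im := by gcongr
    linarith
  have hδL : 2 / L ≤ δ := by
    rw [hδ, div_le_div_iff₀ hL0 (by positivity)]
    have h1 : 32 ≤ K1 * (Real.log L + Real.log (1 + U)) := by nlinarith
    nlinarith
  have hδ1 : 1 / L ≤ δ := by
    refine le_trans ?_ hδL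
    gcongr
    norm_num
  have hδ0 : 0 < δ := lt_of_lt_of_le (by positivity) hδ1
  set M : ℝ := Cm * (1 + U) ^ B * (X : ℝ) ^ (1 - δ / 4) * L ^ A with hMdef
  have h := count_mean (sqf X) (fun d => ff T (YY X) d) (a := 1 / 2 + 3 * δ) (b := 1 + δ) (U := U)
    (r := δ / 2) (V := 1 / 2) (M := M) (by positivity) hU0 (by positivity) (by linarith)
    (by linarith) (fun d hd => ff_diff T (YY X) (mem_sqf.1 hd).2) ?_ SU
    ((Finset.filter_subset _ _).trans hSX) ?_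
  · have e2 : (1 / L) ^ 2 ≤ δ ^ 2 := by
      apply pow_le_pow_left₀ (by positivity) hδ1
    have h3 : (SU.card : ℝ) * (1 / 8 * (1 / L) ^ 2) ≤ M * (U + 3) ^ 2 := by
      refine le_trans ?_ h
      have : 1 / 8 * (1 / L) ^ 2 ≤ 1 / 2 * (δ / 2) ^ 2 := by nlinarith
      gcongr
    have h4 : (SU.card : ℝ) ≤ 8 * L ^ 2 * (M * (U + 3) ^ 2) := by
      have e3 : (SU.card : ℝ) = 8 * L ^ 2 * ((SU.card : ℝ) * (1 / 8 * (1 / L) ^ 2)) := by
        field_simp
      rw [e3]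
      gcongr
    refine h4.trans ?_
    have h5 : (U + 3 : ℝ) ^ 2 ≤ 9 * (1 + U) ^ 2 := by nlinarith
    have e4 : (X : ℝ) ^ (1 - δ / 4) = X * (L * (1 + U)) ^ (-(K1 / 64)) := by
      rw [hδ]
      exact rpow_eq hX hU0
    have hLU : 1 ≤ L * (1 + U) := by nlinarith
    have e5 : (L * (1 + U)) ^ (-(K1 / 64)) ≤ ((L * (1 + U)) ^ (A + B + Kx + 6))⁻¹ := by
      rw [← Real.rpow_natCast, ← Real.rpow_neg (by positivity)]
      apply Real.rpow_le_rpow_of_exponent_le hLU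
      push_cast
      linarith
    calc 8 * L ^ 2 * (M * (U + 3) ^ 2)
        ≤ 8 * L ^ 2 * ((Cm * (1 + U) ^ B * (X * ((L * (1 + U)) ^ (A + B + Kx + 6))⁻¹) * L ^ A) *
          (9 * (1 + U) ^ 2)) := by
          rw [hMdef, e4]
          gcongr
      _ = 72 * Cm * X * (L ^ (A + 2) * (1 + U) ^ (B + 2)) *
          ((L * (1 + U)) ^ (A + B + Kx + 6))⁻¹ := by ring
      _ ≤ 72 * Cm * X * (L ^ Kx * (1 + U) ^ 2)⁻¹ := by
          rw [mul_assoc (72 * Cm * (X : ℝ))]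
          gcongr
          rw [← div_eq_mul_inv, div_le_iff₀ (by positivity), inv_mul_eq_div,
            le_div_iff₀ (by positivity)]
          have h1U : (1 : ℝ) ≤ 1 + U := by linarith
          calc L ^ (A + 2) * (1 + (U : ℝ)) ^ (B + 2) * (L ^ Kx * (1 + (U : ℝ)) ^ 2)
              = L ^ (A + 2 + Kx) * (1 + (U : ℝ)) ^ (B + 4) := by ring
            _ ≤ L ^ (A + B + Kx + 6) * (1 + (U : ℝ)) ^ (A + B + Kx + 6) :=
                mul_le_mul (pow_le_pow_right₀ hl (by omega)) (pow_le_pow_right₀ h1U (by omega))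
                  (by positivity) (by positivity)
            _ = _ := by rw [mul_pow]
      _ = _ := by
          rw [mul_inv, div_div, add_comm (U : ℝ) 1]
          field_simp
  · intro s hs
    rw [mem_Box] at hs
    exact hmean X δ U s hX hδ1 hδ8 hU0 hs.1.1 hs.1.2 hs.2
  · intro d hd
    obtain ⟨hdS, hdu⟩ := Finset.mem_filter.1 hd
    obtain ⟨g1, g2, g3, g4⟩ := hs0 d hdS
    refine ⟨s0 d, ?_, ?_, ?_, g4⟩
    · have h1 := hel d hd
      have h2 : 16 * δ ≤ K1 * el L (s0 d).im / L := by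
        rw [hδ, le_div_iff₀ hL0]
        have e : 16 * (K1 * (Real.log L + Real.log (1 + U)) / (16 * L)) * L =
            K1 * (Real.log L + Real.log (1 + U)) := by field_simp
        rw [e]
        gcongr
      linarith
    · have : 1 / L ≤ δ / 2 := by
        have e : 2 / L = 2 * (1 / L) := by ring
        rw [e] at hδL
        linarith
      linarith
    · have h1 := (ceil_facts (s0 d).im).1
      rw [show ⌈|(s0 d).im|⌉₊ = U from hdu] at h1
      exact h1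

end Pool.Agent.Hp428.TD
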