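import Pool.Agent.Hp428.TD.Loc2

set_option autoImplicit false

/-!
# The normalised local situation at all scales
-/

namespace Pool.Agent.Hp428.TD

open Complex Filter Topology Set
open Pool.Agent.H24R2.DZ (NN SHar)
open scoped ComplexConjugate

theorem logDeriv_G {L K Q : ℝ} {R G : ℂ → ℂ} (H : GQ L K Q R G) {w : ℂ} (hw : 0 < w.re)
    (hR : R w ≠ 0) :
    G w ≠ 0 ∧ logDeriv G w = (Real.log Q : ℝ) + logDeriv Gamma (1 + w) + logDeriv R w := by
  obtain ⟨c, hc, hf⟩ := H.fac
  have hQ := H.hQ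
  have hQc : (Q : ℂ) ≠ 0 := by exact_mod_cast hQ.ne'
  have hG1 : Gamma (1 + w) ≠ 0 := Gamma_ne hw.le
  have hpow : ∀ z : ℂ, (Q : ℂ) ^ z ≠ 0 := fun z => by
    rw [Complex.cpow_ne_zero_iff]; exact Or.inl hQc
  have hne : G w ≠ 0 := by
    rw [hf w hw.le]
    exact mul_ne_zero (mul_ne_zero (mul_ne_zero hc (hpow w)) hG1) hR
  refine ⟨hne, ?_⟩
  have hev : G =ᶠ[𝓝 w] fun z => (c * (Q : ℂ) ^ z) * Gamma (1 + z) * R z := by
    have : {z : ℂ | 0 < z.re} ∈ 𝓝 w := (isOpen_lt continuous_const continuous_re).mem_nhds hw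
    filter_upwards [this] with z hz
    exact hf z (le_of_lt hz)
  have e1 : logDeriv G w = logDeriv (fun z => (c * (Q : ℂ) ^ z) * Gamma (1 + z) * R z) w := by
    rw [logDeriv_apply, logDeriv_apply, hev.deriv_eq, hev.eq_of_nhds]
  have dQ : HasDerivAt (fun z : ℂ => (Q : ℂ) ^ z) ((Q : ℂ) ^ w * Complex.log Q) w := by
    have h := (hasDerivAt_id w).const_cpow (c := (Q : ℂ)) (Or.inl hQc)
    simpa using h
  have dcQ : HasDerivAt (fun z : ℂ => c * (Q : ℂ) ^ z) (c * ((Q : ℂ) ^ w * Complex.log Q)) w :=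
    dQ.const_mul c
  have dG : DifferentiableAt ℂ (fun z : ℂ => Gamma (1 + z)) w := by
    have h : DifferentiableAt ℂ Gamma (1 + w) := by
      apply Complex.differentiableAt_Gamma
      intro m h
      have h2 := congrArg Complex.re h
      simp at h2
      have : (0 : ℝ) ≤ m := Nat.cast_nonneg m
      linarith
    exact h.comp w (by fun_prop)
  have hRd := H.rn.an w hw.le
  rw [e1, logDeriv_mul (f := fun z => (c * (Q : ℂ) ^ z) * Gamma (1 + z)) (g := R) w
    (mul_ne_zero (mul_ne_zero hc (hpow w)) hG1) hR (dcQ.differentiableAt.mul dG) hRd,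
    logDeriv_mul (f := fun z => c * (Q : ℂ) ^ z) (g := fun z => Gamma (1 + z)) w
    (mul_ne_zero hc (hpow w)) hG1 dcQ.differentiableAt dG]
  congr 2
  · rw [logDeriv_apply, dcQ.deriv, Complex.ofReal_log hQ.le]
    have := hpow w
    field_simp
  · rw [logDeriv_apply, logDeriv_apply, deriv_comp_const_add]

theorem logDeriv_aff {G : ℂ → ℂ} {c r z : ℂ} (h : DifferentiableAt ℂ G (c + r * z)) :
    logDeriv (fun z => G (c + r * z)) z = r * logDeriv G (c + r * z) := by
  have h1 : HasDerivAt (fun z : ℂ => c + r * z) r z := by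
    have := ((hasDerivAt_id z).const_mul r).const_add c
    simpa using this
  have h2 := HasDerivAt.comp z h.hasDerivAt h1
  rw [logDeriv_apply, logDeriv_apply]
  have e : (fun z => G (c + r * z)) = G ∘ (fun z => c + r * z) := rfl
  rw [e, h2.deriv]
  show deriv G (c + r * z) * r / G (c + r * z) = r * (deriv G (c + r * z) / G (c + r * z))
  ring

/-- the local situation -/
theorem nn_of {ε K CH L y y0 r n Q : ℝ} {R G : ℂ → ℂ}
    (hH : ∀ (B : ℝ) (K : ℂ → ℂ), 0 ≤ B →
      (∀ z : ℂ, 1 / 2000 ≤ z.re → z.re ≤ 25 → |z.im| ≤ 25 →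
        DifferentiableAt ℂ K z ∧ K z ≠ 0 ∧ ‖K z‖ ≤ Real.exp B * ‖K 1‖) →
      ∀ z : ℂ, 1 / 1000 ≤ z.re → z.re ≤ 21 → |z.im| ≤ 21 → ‖logDeriv K z‖ ≤ CH * B)
    (S : St ε K CH L y y0 r n) (H : GQ L K Q R G) :
    NN (r * Oq L y n) (10 * ε) (fun z => G (I * y0 + r * z)) := by
  have hr := S.r_pos
  have hL := S.hL
  have hK := S.hK
  have hO := S.Om_pos
  have hOL := S.Om_ge
  have hC := S.hCH
  have hε := S.hε
  have hε1 := S.hε1
  have hQ := H.hQ
  set Om := Oq L y n with hOm
  set l : ℝ := Real.log (2 + |y| + n) with hl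
  have hOml : Om = L + l := rfl
  have hn0 := S.n_pos
  have hya := abs_nonneg y
  have hl0 : 0 ≤ l := Real.log_nonneg (by linarith)
  have hel := el_nonneg (L := L) (by linarith) y
  set B : ℝ := 2 * K * (el L y + 14 * r) with hB
  have hB0 : 0 ≤ B := by positivity
  have hBle := S.B_le
  rw [← hB, ← hOm] at hBle
  have hBle1 : B ≤ ε * (r * Om) := le_trans (by nlinarith) hBle
  have hre : ∀ x : ℂ, (I * (y0 : ℂ) + r * x).re = r * x.re := by intro x; simp
  have him : ∀ x : ℂ, (I * (y0 : ℂ) + r * x).im = y0 + r * x.im := by intro x; simp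
  have hq := H.q
  have hl1 := S.l1
  have hrc : (r : ℂ) ≠ 0 := by exact_mod_cast hr.ne'
  -- bounds for the L-function
  have imle : ∀ x : ℂ, |x.im| ≤ 25 → |(I * (y0 : ℂ) + r * x).im| ≤ |y| + 27 * r := by
    intro x hx
    rw [him]
    have h1 := abs_add_le y0 (r * x.im)
    rw [abs_mul, abs_of_pos hr] at h1
    have h2 := S.y0_le
    nlinarith
  have Kel : ∀ x : ℂ, |x.im| ≤ 25 → K * el L (I * (y0 : ℂ) + r * x).im ≤ B / 2 := by
    intro x hx
    have h1 := el_near (L := L) hr.le (imle x hx)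
    rw [hB]
    nlinarith
  have Rup : ∀ x : ℂ, 0 ≤ x.re → |x.im| ≤ 25 → ‖R (I * y0 + r * x)‖ ≤ Real.exp (B / 2) := by
    intro x h1 h2
    refine (H.rn.up _ ?_).trans (Real.exp_le_exp.2 (Kel x h2))
    rw [hre]; positivity
  have Rlow : ∀ x : ℂ, 1 / 2000 ≤ x.re → |x.im| ≤ 25 →
      Real.exp (-(B / 2)) ≤ ‖R (I * y0 + r * x)‖ := by
    intro x h1 h2
    have h0 : r / 2000 ≤ (I * (y0 : ℂ) + r * x).re := by rw [hre]; nlinarith
    refine le_trans (Real.exp_le_exp.2 (neg_le_neg (Kel x h2))) (H.rn.low _ ?_ ?_)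
    · exact le_trans (by positivity) h0
    · exact S.reg h0 (imle x h2)
  have Rne : ∀ x : ℂ, 1 / 2000 ≤ x.re → |x.im| ≤ 25 → R (I * y0 + r * x) ≠ 0 := by
    intro x h1 h2 h3
    have h4 := Rlow x h1 h2
    rw [h3, norm_zero] at h4
    exact absurd h4 (not_le.2 (Real.exp_pos _))
  have hRdiff : ∀ x : ℂ, 0 ≤ x.re → DifferentiableAt ℂ R (I * y0 + r * x) := by
    intro x hx
    apply H.rn.an
    rw [hre]; positivity
  have hLD : ∀ z : ℂ, 1 / 1000 ≤ z.re → z.re ≤ 21 → |z.im| ≤ 21 →
      ‖logDeriv (fun z => R (I * y0 + r * z)) z‖ ≤ CH * B := by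
    apply hH B _ hB0
    intro x h1 h2 h3
    refine ⟨?_, Rne x h1 h3, ?_⟩
    · exact (hRdiff x (by linarith)).comp x (by fun_prop)
    · have h4 := Rup x (by linarith) h3
      have h5 := Rlow 1 (by norm_num) (by norm_num)
      have e : Real.exp B * Real.exp (-(B / 2)) = Real.exp (B / 2) := by
        rw [← Real.exp_add]; ring_nf
      calc ‖R (I * y0 + r * x)‖ ≤ Real.exp (B / 2) := h4
        _ = Real.exp B * Real.exp (-(B / 2)) := e.symm
        _ ≤ _ := by gcongr
  refine ⟨?_, ?_, ?_, ?_⟩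
  · exact H.diff.comp (by fun_prop)
  · intro z
    show G (I * y0 + r * (-(conj z))) = conj (G (I * y0 + r * z))
    rw [← H.symm]
    congr 1
    simp
    ring
  · -- the far condition
    intro z h1 h2
    have hzre : z.re ≤ 20 := (re_le_norm z).trans h2
    have hzim : |z.im| ≤ 20 := (abs_im_le_norm z).trans h2
    have hwre : 0 < (I * (y0 : ℂ) + r * z).re := by rw [hre]; positivity
    obtain ⟨g1, g2⟩ := logDeriv_G H hwre (Rne z (by linarith) (by linarith))
    refine ⟨g1, ?_⟩
    rw [logDeriv_aff (H.diff _), g2]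
    have g3 := hLD z h1 (by linarith) (by linarith)
    rw [logDeriv_aff (hRdiff z (by linarith))] at g3
    have g4 := S.gam_reg (u := I * y0 + r * z) (by rw [hre]; nlinarith) (St.dist_z hr (h2.trans (by norm_num)))
    rw [← hOm, ← hl] at g4
    have e : (r : ℂ) * ((Real.log Q : ℝ) + logDeriv Gamma (1 + (I * y0 + r * z)) +
        logDeriv R (I * y0 + r * z)) - ((r * Om : ℝ) : ℂ) =
        ((r * (Real.log Q - L) : ℝ) : ℂ) +
        r * (logDeriv Gamma (1 + (I * y0 + r * z)) - (l : ℂ)) +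
        r * logDeriv R (I * y0 + r * z) := by
      rw [hOml]; push_cast; ring
    rw [e]
    have a1 : ‖((r * (Real.log Q - L) : ℝ) : ℂ)‖ ≤ ε * (r * Om) := by
      rw [Complex.norm_real, Real.norm_eq_abs, abs_mul, abs_of_pos hr]
      calc r * |Real.log Q - L| ≤ r * (ε * Om) := by
            gcongr
            exact (hq.trans hl1).trans (by gcongr)
        _ = _ := by ring
    have a2 : ‖(r : ℂ) * (logDeriv Gamma (1 + (I * y0 + r * z)) - (l : ℂ))‖ ≤ ε * (r * Om) := by
      rw [norm_mul, Complex.norm_real, Real.norm_eq_abs, abs_of_pos hr]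
      calc r * ‖logDeriv Gamma (1 + (I * y0 + r * z)) - (l : ℂ)‖ ≤ r * (ε * Om) := by gcongr
        _ = _ := by ring
    have hpos : 0 ≤ ε * (r * Om) := by positivity
    calc _ ≤ ‖((r * (Real.log Q - L) : ℝ) : ℂ)‖ +
          ‖(r : ℂ) * (logDeriv Gamma (1 + (I * y0 + r * z)) - (l : ℂ))‖ +
          ‖(r : ℂ) * logDeriv R (I * y0 + r * z)‖ := norm_add₃_le
      _ ≤ ε * (r * Om) + ε * (r * Om) + ε * (r * Om) := by
          gcongr
          exact g3.trans hBle
      _ ≤ 10 * ε * (r * Om) := by linarith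
  · -- the near condition
    have main : ∀ z : ℂ, 0 ≤ z.re → z.re ≤ 1 / 1000 → ‖z‖ ≤ 20 →
        ‖G (I * y0 + r * z)‖ ≤ ‖G (I * y0 + r * 1)‖ * Real.exp (-(9 / 10 * (r * Om))) := by
      intro z h0 h1 h2
      have hzim : |z.im| ≤ 20 := (abs_im_le_norm z).trans h2
      obtain ⟨c, hc, hf⟩ := H.fac
      have hw0 : 0 ≤ (I * (y0 : ℂ) + r * z).re := by rw [hre]; positivity
      have hw1 : 0 ≤ (I * (y0 : ℂ) + r * 1).re := by rw [hre]; simp; positivity
      rw [hf _ hw0, hf _ hw1]
      simp only [norm_mul]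
      rw [Complex.norm_cpow_eq_rpow_re_of_pos hQ, Complex.norm_cpow_eq_rpow_re_of_pos hQ, hre, hre,
        one_re]
      have hc0 : 0 < ‖c‖ := norm_pos_iff.2 hc
      have hg := S.gam_ratio h0 h1 h2
      rw [← hOm, ← hl] at hg
      have p1 : 0 < ‖Gamma (1 + (I * (y0 : ℂ) + r * z))‖ := norm_pos_iff.2 (Gamma_ne hw0)
      have p2 : 0 < ‖Gamma (1 + (I * (y0 : ℂ) + r * 1))‖ := norm_pos_iff.2 (Gamma_ne hw1)
      set g0 := Real.log ‖Gamma (1 + (I * (y0 : ℂ) + r * z))‖ with hg0
      set g1 := Real.log ‖Gamma (1 + (I * (y0 : ℂ) + r * 1))‖ with hg1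
      have q0 : ‖Gamma (1 + (I * (y0 : ℂ) + r * z))‖ = Real.exp g0 := (Real.exp_log p1).symm
      have q1 : ‖Gamma (1 + (I * (y0 : ℂ) + r * 1))‖ = Real.exp g1 := (Real.exp_log p2).symm
      have r0 := Rup z h0 (by linarith)
      have r1 := Rlow 1 (by norm_num) (by norm_num)
      rw [q0, q1, Real.rpow_def_of_pos hQ, Real.rpow_def_of_pos hQ]
      have hlQ := abs_le.1 (hq.trans hl1)
      have hfin : Real.log Q * (r * z.re) + g0 + B / 2 ≤
          Real.log Q * (r * 1) + g1 + -(B / 2) + -(9 / 10 * (r * Om)) := by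
        have t1 : (L - ε * L) * (r * (1 - z.re)) ≤ Real.log Q * (r * (1 - z.re)) := by
          apply mul_le_mul_of_nonneg_right (by linarith [hlQ.1])
          have : 0 ≤ 1 - z.re := by linarith
          positivity
        have t2 : 999 / 1000 * r ≤ r * (1 - z.re) := by nlinarith
        have t3 : (L - ε * L) * (999 / 1000 * r) ≤ (L - ε * L) * (r * (1 - z.re)) := by
          apply mul_le_mul_of_nonneg_left t2
          nlinarith
        have t4 : l * (98 / 100 * r) ≤ l * (r * (99 / 100 - z.re)) := by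
          apply mul_le_mul_of_nonneg_left _ hl0
          nlinarith
        have t5 : ε * Om * (22 * r) ≤ 22 / 10000 * (r * Om) := by
          have : 0 < r * Om := by positivity
          nlinarith
        have t6 : B ≤ 1 / 10000 * (r * Om) := by
          have : 0 < r * Om := by positivity
          nlinarith
        have t7 : (9 + l) * (r / 100) = 9 / 100 * r + 1 / 100 * (r * l) := by ring
        have t8 : 9 / 100 * r ≤ 1 / 1000 * (r * Om) := by nlinarith
        have t9 : (L - ε * L) * (999 / 1000 * r) ≥ 99 / 100 * (r * L) := by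
          have : 0 < r * L := by positivity
          nlinarith
        have t10 : r * Om = r * L + r * l := by rw [hOml]; ring
        have t11 : 0 ≤ r * l := by positivity
        have t12 : 0 < r * L := by positivity
        linarith
      calc ‖c‖ * Real.exp (Real.log Q * (r * z.re)) * Real.exp g0 * ‖R (I * y0 + r * z)‖
          ≤ ‖c‖ * Real.exp (Real.log Q * (r * z.re)) * Real.exp g0 * Real.exp (B / 2) := by gcongr
        _ = ‖c‖ * Real.exp (Real.log Q * (r * z.re) + g0 + B / 2) := by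
            rw [Real.exp_add, Real.exp_add]; ring
        _ ≤ ‖c‖ * Real.exp (Real.log Q * (r * 1) + g1 + -(B / 2) + -(9 / 10 * (r * Om))) := by
            gcongr
        _ = ‖c‖ * Real.exp (Real.log Q * (r * 1)) * Real.exp g1 * Real.exp (-(B / 2)) *
            Real.exp (-(9 / 10 * (r * Om))) := by
            rw [Real.exp_add, Real.exp_add, Real.exp_add]; ring
        _ ≤ _ := by gcongr
    intro z h1 h2
    rcases le_total 0 z.re with h0 | h0
    · exact main z h0 ((le_abs_self _).trans h1) h2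
    · have h3 := main (-(conj z)) (by simpa using h0) (by
        have := (neg_abs_le z.re)
        simp
        linarith [abs_le.1 h1]) (by rw [norm_neg, Complex.norm_conj]; exact h2)
      have e : G (I * y0 + r * -(conj z)) = conj (G (I * y0 + r * z)) := by
        rw [← H.symm]
        congr 1
        simp
        ring
      rw [e, Complex.norm_conj] at h3
      exact h3

end Pool.Agent.Hp428.TD
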